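import Pool.Agent.Helper15.SV.Val

/-!
# The number of lifts
-/

open scoped Classical BigOperators
open Representation Pool.Agent.Helper884.IC Pool.Agent.Y63.AWC Pool.Agent.Helper15.AW

set_option linter.unusedSectionVars false
set_option linter.unusedVariables false

noncomputable section

namespace Pool.Agent.Helper15.SV

open Pool.Agent.Y63.KR (surfaceWord coords dg cod dg_spec cod_spec unit_pow)

section

variable {G : Type} [Group G] [Fintype G] {M : Subgroup G} [M.Normal] {p : ℕ} [hp : Fact p.Prime]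

lemma coords_le {K : Subgroup G} {g : ℕ} {q : Fin g → G × G} :
    Subgroup.closure (coords q) ≤ K ↔ ∀ i, (q i).1 ∈ K ∧ (q i).2 ∈ K := by
  rw [Subgroup.closure_le]
  constructor
  · intro h i
    exact ⟨h (Or.inl ⟨i, rfl⟩), h (Or.inr ⟨i, rfl⟩)⟩
  · rintro h x (⟨i, rfl⟩ | ⟨i, rfl⟩)
    · exact (h i).1
    · exact (h i).2

/-- the number of lifts of a tuple -/
theorem lifts_mod {K B R : Subgroup G} (hE : Ext M) (hA : Act p M K B R) {n N : ℕ}
    (hd : p ^ N * (p - 1) ∣ n) (q : Fin (n + 1) → G × G)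
    (hq : ∀ i, (q i).1 ∈ K ∧ (q i).2 ∈ K) (hwM : surfaceWord q ∈ M)
    (hwc : surfaceWord q ∈ Subgroup.center G) (hgen : Subgroup.closure (coords q) ⊔ M = ⊤) :
    (p : ℤ) ^ (N + 1) ∣
      (Nat.card {m : Fin (n + 1) → M × M // surfaceWord (mulT q (mapT M.subtype m)) = 1} : ℤ) -
        Nat.card M * Nat.card ((Subgroup.center G).subgroupOf M) *
          (if surfaceWord q = 1 then 1 else 0) := by
  have h1 := card_lifts_zf q hwM hgen
  have h2 := sum_zf hE hA q hq hwM hwc hgen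
  have hcod : ∀ theta : M → ℂ, ∃ w : ℂ, IsIntegral ℤ w ∧ (theta ∈ Irr M →
      zf q theta * (cod theta : ℂ) ^ (2 * n) = zf q theta + (p : ℂ) ^ (N + 1) * w) := by
    intro theta
    by_cases ht : theta ∈ Irr M
    · have hirr := mem_Irr.1 ht
      have hpc : ¬ p ∣ cod theta := by
        intro h
        apply hA.prime
        rw [← cod_spec hirr]
        exact Dvd.dvd.mul_left h _
      have h3 : (cod theta) ^ (2 * n) ≡ 1 [MOD p ^ (N + 1)] :=
        unit_pow hpc (Dvd.dvd.mul_left hd 2)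
      have h4 : ((p ^ (N + 1) : ℕ) : ℤ) ∣ ((1 : ℕ) : ℤ) - ((cod theta ^ (2 * n) : ℕ) : ℤ) :=
        (Nat.modEq_iff_dvd).1 h3
      obtain ⟨k, hk⟩ := h4
      refine ⟨zf q theta * ((-k : ℤ) : ℂ), (zf_spec hwM hgen hirr).1.mul
        (isIntegral_algebraMap (R := ℤ) (A := ℂ) (x := -k)), fun _ => ?_⟩
      have h5 : (cod theta : ℂ) ^ (2 * n) = 1 + (p : ℂ) ^ (N + 1) * ((-k : ℤ) : ℂ) := by
        have h6 : ((cod theta ^ (2 * n) : ℕ) : ℤ) = 1 + (p : ℤ) ^ (N + 1) * (-k) := by
          push_cast at hk ⊢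
          linarith
        have h7 := congrArg (fun x : ℤ => (x : ℂ)) h6
        push_cast at h7 ⊢
        exact h7
      rw [h5]
      ring
    · exact ⟨0, isIntegral_zero, fun h => absurd h ht⟩
  choose w hw1 hw2 using hcod
  refine dvd_of_integral N _ ((Nat.card M : ℂ) * ∑ theta ∈ Irr M, w theta)
    (IsIntegral.mul ?_ (IsIntegral.sum _ fun theta _ => hw1 theta)) ?_
  · exact isIntegral_algebraMap (R := ℤ) (A := ℂ) (x := ((Nat.card M : ℕ) : ℤ)) |> fun h => by
      simpa using h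
  · push_cast
    rw [h1, Finset.sum_congr rfl fun theta ht => hw2 theta ht, Finset.sum_add_distrib, h2,
      ← Finset.mul_sum]
    ring

/-- the fibre over the image of a generating tuple -/
lemma card_fibre' {g : ℕ} (q0 : Fin g → G × G) (hw : surfaceWord q0 ∈ M)
    (hgen : Subgroup.closure (coords q0) ⊔ M = ⊤) (C : Subgroup G) (hC : C ≤ M)
    (P : (Fin g → G × G) → Prop)
    (hP : ∀ m : Fin g → M × M, (∀ i, ((m i).1 : G) ∈ C ∧ ((m i).2 : G) ∈ C) ↔
      P (mulT q0 (mapT M.subtype m))) :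
    Nat.card {q : Fin g → G × G // (surfaceWord q = 1 ∧ Subgroup.closure (coords q) ⊔ M = ⊤ ∧ P q) ∧
      mapT (QuotientGroup.mk' M) q = mapT (QuotientGroup.mk' M) q0} =
      Nat.card {m : Fin g → M × M // (∀ i, ((m i).1 : G) ∈ C ∧ ((m i).2 : G) ∈ C) ∧
        surfaceWord (mulT q0 (mapT M.subtype m)) = 1} := by
  have hclo : ∀ q : Fin g → G × G, mapT (QuotientGroup.mk' M) q = mapT (QuotientGroup.mk' M) q0 →
      Subgroup.closure (coords q) ⊔ M = ⊤ := by
    intro q hq
    rw [← quot_sup_iff, ← closure_mapT, hq, closure_mapT, quot_sup_iff]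
    exact hgen
  have hmem : ∀ a b : G, (QuotientGroup.mk' M) a = (QuotientGroup.mk' M) b → a⁻¹ * b ∈ M := by
    intro a b h
    rw [← QuotientGroup.eq_one_iff, ← QuotientGroup.mk'_apply, map_mul, map_inv, h,
      inv_mul_cancel]
  let D : (q : Fin g → G × G) → mapT (QuotientGroup.mk' M) q = mapT (QuotientGroup.mk' M) q0 →
      Fin g → M × M := fun q hq i =>
    (⟨(q0 i).1⁻¹ * (q i).1, hmem _ _ (congrArg Prod.fst (congrFun hq i)).symm⟩,
      ⟨(q0 i).2⁻¹ * (q i).2, hmem _ _ (congrArg Prod.snd (congrFun hq i)).symm⟩)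
  have hD : ∀ q hq, mulT q0 (mapT M.subtype (D q hq)) = q := by
    intro q hq
    funext i
    refine Prod.ext ?_ ?_
    · exact mul_inv_cancel_left _ _
    · exact mul_inv_cancel_left _ _
  refine Nat.card_congr
    { toFun := fun q => ⟨D q.1 q.2.2, ?_, ?_⟩
      invFun := fun m => ⟨mulT q0 (mapT M.subtype m.1), ⟨m.2.2, ?_, ?_⟩, ?_⟩
      left_inv := fun q => Subtype.ext (hD q.1 q.2.2)
      right_inv := fun m => Subtype.ext (funext fun i => ?_) }
  · refine (hP _).2 ?_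
    rw [hD q.1 q.2.2]
    exact q.2.1.2.2
  · rw [hD q.1 q.2.2]
    exact q.2.1.1
  · exact hclo _ (mapT_lift _ _)
  · exact (hP m.1).1 m.2.1
  · exact mapT_lift _ _
  · refine Prod.ext (Subtype.ext ?_) (Subtype.ext ?_)
    · exact inv_mul_cancel_left _ _
    · exact inv_mul_cancel_left _ _

/-- the tuples of central elements -/
lemma card_cent (g : ℕ) : Nat.card {m : Fin g → M × M //
    ∀ i, ((m i).1 : G) ∈ Subgroup.center G ⊓ M ∧ ((m i).2 : G) ∈ Subgroup.center G ⊓ M} =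
      Nat.card ((Subgroup.center G).subgroupOf M) ^ (2 * g) := by
  have h1 : Nat.card {m : Fin g → M × M //
      ∀ i, ((m i).1 : G) ∈ Subgroup.center G ⊓ M ∧ ((m i).2 : G) ∈ Subgroup.center G ⊓ M} =
      Nat.card (Fin g → (Subgroup.center G).subgroupOf M × (Subgroup.center G).subgroupOf M) :=
    Nat.card_congr
      { toFun := fun m i => (⟨(m.1 i).1, (m.2 i).1.1⟩, ⟨(m.1 i).2, (m.2 i).2.1⟩)
        invFun := fun m => ⟨fun i => ((m i).1, (m i).2), fun i =>
          ⟨⟨(m i).1.2, (m i).1.1.2⟩, ⟨(m i).2.2, (m i).2.1.2⟩⟩⟩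
        left_inv := fun m => rfl
        right_inv := fun m => rfl }
  rw [h1, Nat.card_fun, Nat.card_prod]
  simp only [Nat.card_eq_fintype_card, Fintype.card_fin]
  ring

/-- the two fibres -/
lemma fibre_both {K B R : Subgroup G} (hE : Ext M) (hA : Act p M K B R) (hKM : K ⊔ M = ⊤)
    (hKc : ∀ x ∈ K, x ∈ M → x ∈ Subgroup.center G) (hcK : Subgroup.center G ≤ K) {n N : ℕ}
    (hd : p ^ N * (p - 1) ∣ n) (r : Fin (n + 1) → (G ⧸ M) × (G ⧸ M)) :
    ∃ c : ℕ, Nat.card {q : Fin (n + 1) → G × G // (surfaceWord q = 1 ∧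
        Subgroup.closure (coords q) ⊔ M = ⊤ ∧ Subgroup.closure (coords q) ≤ K) ∧
          mapT (QuotientGroup.mk' M) q = r} =
        Nat.card ((Subgroup.center G).subgroupOf M) ^ (2 * (n + 1)) * c ∧
      (p : ℤ) ^ (N + 1) ∣ (Nat.card {q : Fin (n + 1) → G × G // (surfaceWord q = 1 ∧
        Subgroup.closure (coords q) ⊔ M = ⊤ ∧ True) ∧ mapT (QuotientGroup.mk' M) q = r} : ℤ) -
          Nat.card M * Nat.card ((Subgroup.center G).subgroupOf M) * c := by
  by_cases hr : surfaceWord r = 1 ∧ Subgroup.closure (coords r) = ⊤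
  · -- a lift in `K`
    have hlift : ∀ x : G ⧸ M, ∃ y ∈ K, QuotientGroup.mk' M y = x := by
      intro x
      obtain ⟨x, rfl⟩ := QuotientGroup.mk'_surjective M x
      have hx : x ∈ K ⊔ M := by rw [hKM]; trivial
      rw [Subgroup.mem_sup_of_normal_right] at hx
      obtain ⟨k, hk, m, hm, rfl⟩ := hx
      refine ⟨k, hk, ?_⟩
      rw [map_mul]
      have : (QuotientGroup.mk' M) m = 1 := (QuotientGroup.eq_one_iff _).2 hm
      rw [this, mul_one]
    choose L hL1 hL2 using hlift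
    let q0 : Fin (n + 1) → G × G := mapT L r
    have hq0 : ∀ i, (q0 i).1 ∈ K ∧ (q0 i).2 ∈ K := fun i => ⟨hL1 _, hL1 _⟩
    have hr0 : mapT (QuotientGroup.mk' M) q0 = r := by
      funext i
      exact Prod.ext (hL2 _) (hL2 _)
    have hwM : surfaceWord q0 ∈ M := by
      rw [← QuotientGroup.eq_one_iff, ← QuotientGroup.mk'_apply, ← word_mapT, hr0]
      exact hr.1
    have hwK : surfaceWord q0 ∈ K := by
      have h1 : surfaceWord q0 ∈ Subgroup.closure (coords q0) := by
        let q1 : Fin (n + 1) → Subgroup.closure (coords q0) × Subgroup.closure (coords q0) :=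
          fun i => (⟨(q0 i).1, Subgroup.subset_closure (Or.inl ⟨i, rfl⟩)⟩,
            ⟨(q0 i).2, Subgroup.subset_closure (Or.inr ⟨i, rfl⟩)⟩)
        have h2 := word_mapT (Subgroup.closure (coords q0)).subtype q1
        have h3 : mapT (Subgroup.closure (coords q0)).subtype q1 = q0 := rfl
        rw [h3] at h2
        rw [h2]
        exact (surfaceWord q1).2
      exact coords_le.2 hq0 h1
    have hwc := hKc _ hwK hwM
    have hgen : Subgroup.closure (coords q0) ⊔ M = ⊤ := by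
      rw [← quot_sup_iff, ← closure_mapT, hr0]
      exact hr.2
    refine ⟨if surfaceWord q0 = 1 then 1 else 0, ?_, ?_⟩
    · rw [← hr0, card_fibre' q0 hwM hgen (Subgroup.center G ⊓ M) inf_le_right
        (fun q => Subgroup.closure (coords q) ≤ K) (by
          intro m
          rw [coords_le]
          refine forall_congr' fun i => and_congr ?_ ?_
          · change _ ↔ (q0 i).1 * ((m i).1 : G) ∈ K
            rw [K.mul_mem_cancel_left (hq0 i).1]
            exact ⟨fun h => hcK h.1, fun h => ⟨hKc _ h (m i).1.2, (m i).1.2⟩⟩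
          · change _ ↔ (q0 i).2 * ((m i).2 : G) ∈ K
            rw [K.mul_mem_cancel_left (hq0 i).2]
            exact ⟨fun h => hcK h.1, fun h => ⟨hKc _ h (m i).2.2, (m i).2.2⟩⟩)]
      have hw : ∀ m : Fin (n + 1) → M × M, (∀ i, ((m i).1 : G) ∈ Subgroup.center G ⊓ M ∧
          ((m i).2 : G) ∈ Subgroup.center G ⊓ M) →
          surfaceWord (mulT q0 (mapT M.subtype m)) = surfaceWord q0 := by
        intro m hm
        exact word_central q0 (mapT M.subtype m) fun i => ⟨(hm i).1.1, (hm i).2.1⟩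
      split_ifs with h1
      · rw [mul_one, ← card_cent]
        refine Nat.card_congr (Equiv.subtypeEquivRight fun m => ?_)
        exact ⟨fun h => h.1, fun h => ⟨h, by rw [hw m h, h1]⟩⟩
      · rw [mul_zero, Nat.card_eq_zero]
        left
        constructor
        rintro ⟨m, hm1, hm2⟩
        apply h1
        rw [← hw m hm1, hm2]
    · have h1 := lifts_mod hE hA hd q0 hq0 hwM hwc hgen
      rw [← hr0, card_fibre' q0 hwM hgen M le_rfl (fun _ => True) (by
          intro m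
          exact ⟨fun _ => trivial, fun _ i => ⟨(m i).1.2, (m i).2.2⟩⟩)]
      have h2 : Nat.card {m : Fin (n + 1) → M × M // (∀ i, ((m i).1 : G) ∈ M ∧ ((m i).2 : G) ∈ M) ∧
          surfaceWord (mulT q0 (mapT M.subtype m)) = 1} =
          Nat.card {m : Fin (n + 1) → M × M // surfaceWord (mulT q0 (mapT M.subtype m)) = 1} :=
        Nat.card_congr (Equiv.subtypeEquivRight fun m =>
          ⟨fun h => h.2, fun h => ⟨fun i => ⟨(m i).1.2, (m i).2.2⟩, h⟩⟩)
      rw [h2]
      push_cast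
      exact h1
  · have hempty : ∀ q : Fin (n + 1) → G × G, surfaceWord q = 1 →
        Subgroup.closure (coords q) ⊔ M = ⊤ → mapT (QuotientGroup.mk' M) q ≠ r := by
      rintro q h1 h2 rfl
      apply hr
      refine ⟨?_, ?_⟩
      · rw [word_mapT, h1, map_one]
      · rw [closure_mapT, quot_sup_iff]
        exact h2
    refine ⟨0, ?_, ?_⟩
    · rw [mul_zero, Nat.card_eq_zero]
      left
      constructor
      rintro ⟨q, ⟨h1, h2, _⟩, h3⟩
      exact hempty q h1 h2 h3
    · have h1 : Nat.card {q : Fin (n + 1) → G × G // (surfaceWord q = 1 ∧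
          Subgroup.closure (coords q) ⊔ M = ⊤ ∧ True) ∧ mapT (QuotientGroup.mk' M) q = r} = 0 := by
        rw [Nat.card_eq_zero]
        left
        constructor
        rintro ⟨q, ⟨h1, h2, _⟩, h3⟩
        exact hempty q h1 h2 h3
      rw [h1]
      simp

/-- conjugation -/
def cjT (n : G) {g : ℕ} (q : Fin g → G × G) : Fin g → G × G :=
  mapT (MulAut.conj n).toMonoidHom q

lemma cjT_apply (n : G) {g : ℕ} (q : Fin g → G × G) (i : Fin g) :
    cjT n q i = (n * (q i).1 * n⁻¹, n * (q i).2 * n⁻¹) := rfl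

lemma cjT_mul (a b : G) {g : ℕ} (q : Fin g → G × G) : cjT a (cjT b q) = cjT (a * b) q := by
  funext i
  simp only [cjT_apply, mul_inv_rev]
  refine Prod.ext ?_ ?_
  · simp only [mul_assoc]
  · simp only [mul_assoc]

lemma cjT_one {g : ℕ} (q : Fin g → G × G) : cjT 1 q = q := by
  funext i
  simp [cjT_apply]

lemma cjT_center {z : G} (hz : z ∈ Subgroup.center G) {g : ℕ} (q : Fin g → G × G) :
    cjT z q = q := by
  funext i
  rw [cjT_apply]
  refine Prod.ext ?_ ?_
  · change z * (q i).1 * z⁻¹ = _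
    rw [← Subgroup.mem_center_iff.1 hz, mul_inv_cancel_right]
  · change z * (q i).2 * z⁻¹ = _
    rw [← Subgroup.mem_center_iff.1 hz, mul_inv_cancel_right]

lemma cjT_word {g : ℕ} {q : Fin g → G × G} (h : surfaceWord q = 1) (n : G) :
    surfaceWord (cjT n q) = 1 := by
  unfold cjT
  rw [word_mapT, h, map_one]

lemma cjT_closure {g : ℕ} (q : Fin g → G × G) (n : G) :
    Subgroup.closure (coords (cjT n q)) =
      (Subgroup.closure (coords q)).map (MulAut.conj n).toMonoidHom := closure_mapT _ _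

lemma cjT_sup {g : ℕ} {q : Fin g → G × G} (h : Subgroup.closure (coords q) ⊔ M = ⊤) (n : G) :
    Subgroup.closure (coords (cjT n q)) ⊔ M = ⊤ := by
  have h1 : M = M.map (MulAut.conj n).toMonoidHom := by
    apply le_antisymm
    · intro x hx
      refine ⟨n⁻¹ * x * n, ?_, ?_⟩
      · have := (inferInstance : M.Normal).conj_mem x hx n⁻¹
        rwa [inv_inv] at this
      · change n * (n⁻¹ * x * n) * n⁻¹ = x
        group
    · rintro _ ⟨x, hx, rfl⟩
      exact (inferInstance : M.Normal).conj_mem x hx n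
  rw [cjT_closure, h1, ← Subgroup.map_sup, h]
  exact Subgroup.map_top_of_surjective _ (MulAut.conj n).surjective

/-- an element conjugating a tuple in `K` to a tuple in `K` -/
lemma cj_center {K : Subgroup G} (hE : Ext M)
    (hKc : ∀ x ∈ K, x ∈ M → x ∈ Subgroup.center G) {g : ℕ} {q : Fin g → G × G}
    (hq : Subgroup.closure (coords q) ≤ K) (hgen : Subgroup.closure (coords q) ⊔ M = ⊤) {u : G}
    (hu : u ∈ M) (huq : Subgroup.closure (coords (cjT u q)) ≤ K) : u ∈ Subgroup.center G := by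
  let C : Subgroup G :=
    { carrier := {x | u * x * u⁻¹ * x⁻¹ ∈ Subgroup.center G}
      one_mem' := by
        change u * 1 * u⁻¹ * 1⁻¹ ∈ Subgroup.center G
        rw [mul_one, mul_inv_cancel, inv_one, mul_one]
        exact one_mem _
      mul_mem' := by
        intro x y hx hy
        change u * (x * y) * u⁻¹ * (x * y)⁻¹ ∈ Subgroup.center G
        have h1 : u * (x * y) * u⁻¹ * (x * y)⁻¹ =
            (u * x * u⁻¹ * x⁻¹) * (x * (u * y * u⁻¹ * y⁻¹) * x⁻¹) := by group
        rw [h1]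
        exact mul_mem hx ((inferInstance : (Subgroup.center G).Normal).conj_mem _ hy x)
      inv_mem' := by
        intro x hx
        change u * x⁻¹ * u⁻¹ * x⁻¹⁻¹ ∈ Subgroup.center G
        have h1 : u * x⁻¹ * u⁻¹ * x⁻¹⁻¹ = x⁻¹ * (u * x * u⁻¹ * x⁻¹)⁻¹ * x := by group
        rw [h1]
        have h3 := (inferInstance : (Subgroup.center G).Normal).conj_mem _
          (inv_mem hx : (u * x * u⁻¹ * x⁻¹)⁻¹ ∈ Subgroup.center G) x⁻¹
        rwa [inv_inv] at h3 }
  have hC : C = ⊤ := by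
    rw [eq_top_iff, ← hgen]
    refine sup_le ?_ ?_
    · rw [coords_le]
      rw [coords_le] at hq huq
      intro i
      have hm : ∀ x : G, u * x * u⁻¹ * x⁻¹ ∈ M := by
        intro x
        have h1 : u * x * u⁻¹ * x⁻¹ = u * (x * u⁻¹ * x⁻¹) := by group
        rw [h1]
        exact M.mul_mem hu ((inferInstance : M.Normal).conj_mem _ (M.inv_mem hu) x)
      refine ⟨?_, ?_⟩
      · exact hKc _ (K.mul_mem (huq i).1 (K.inv_mem (hq i).1)) (hm _)
      · exact hKc _ (K.mul_mem (huq i).2 (K.inv_mem (hq i).2)) (hm _)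
    · intro x hx
      apply hE.comm
      have := Subgroup.commutator_mem_commutator hu hx
      rw [commutatorElement_def] at this
      exact this
  let U : Subgroup G :=
    { carrier := {m | m ∈ M ∧ ∀ x : G, m * x * m⁻¹ * x⁻¹ ∈ Subgroup.center G}
      one_mem' := ⟨M.one_mem, fun x => by
        rw [one_mul, inv_one, mul_one, mul_inv_cancel]
        exact one_mem _⟩
      mul_mem' := by
        rintro a b ⟨ha, ha'⟩ ⟨hb, hb'⟩
        refine ⟨M.mul_mem ha hb, fun x => ?_⟩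
        have h1 : a * b * x * (a * b)⁻¹ * x⁻¹ =
            (a * (b * x * b⁻¹ * x⁻¹) * a⁻¹) * (a * x * a⁻¹ * x⁻¹) := by group
        rw [h1]
        exact mul_mem ((inferInstance : (Subgroup.center G).Normal).conj_mem _ (hb' x) a) (ha' x)
      inv_mem' := by
        rintro a ⟨ha, ha'⟩
        refine ⟨M.inv_mem ha, fun x => ?_⟩
        have h1 : a⁻¹ * x * a⁻¹⁻¹ * x⁻¹ = a⁻¹ * (a * x * a⁻¹ * x⁻¹)⁻¹ * a := by group
        rw [h1]
        have h3 := (inferInstance : (Subgroup.center G).Normal).conj_mem _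
          (inv_mem (ha' x) : (a * x * a⁻¹ * x⁻¹)⁻¹ ∈ Subgroup.center G) a⁻¹
        rwa [inv_inv] at h3 }
  have hU : U.Normal := by
    refine ⟨?_⟩
    rintro a ⟨ha, ha'⟩ y
    refine ⟨(inferInstance : M.Normal).conj_mem _ ha y, fun x => ?_⟩
    have h1 : y * a * y⁻¹ * x * (y * a * y⁻¹)⁻¹ * x⁻¹ =
        y * (a * (y⁻¹ * x * y) * a⁻¹ * (y⁻¹ * x * y)⁻¹) * y⁻¹ := by group
    rw [h1]
    exact (inferInstance : (Subgroup.center G).Normal).conj_mem _ (ha' _) y
  have huU : u ∈ U := ⟨hu, fun x => by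
    have hx : x ∈ C := by rw [hC]; trivial
    exact hx⟩
  rcases hE.small U hU with h1 | h1
  · exact h1 huU
  · exfalso
    apply hE.nonc
    refine hE.gen.trans ?_
    rw [Subgroup.commutator_le]
    intro a ha b _
    rw [commutatorElement_def]
    exact (h1 ha).2 b

/-- the tuples which do not generate -/
theorem bad_card {K : Subgroup G} (hE : Ext M) (hKt : K ≠ ⊤)
    (hKc : ∀ x ∈ K, x ∈ M → x ∈ Subgroup.center G)
    (hbad : ∀ L : Subgroup G, L ⊔ M = ⊤ → L ≠ ⊤ → ∃ n ∈ M, ∀ x ∈ L, n⁻¹ * x * n ∈ K) (g : ℕ) :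
    Nat.card {q : Fin g → G × G // surfaceWord q = 1 ∧ Subgroup.closure (coords q) ⊔ M = ⊤ ∧
        Subgroup.closure (coords q) ≠ ⊤} * Nat.card ((Subgroup.center G).subgroupOf M) =
      Nat.card M * Nat.card {q : Fin g → G × G // surfaceWord q = 1 ∧
        Subgroup.closure (coords q) ⊔ M = ⊤ ∧ Subgroup.closure (coords q) ≤ K} := by
  have hex : ∀ q : {q : Fin g → G × G // surfaceWord q = 1 ∧
      Subgroup.closure (coords q) ⊔ M = ⊤ ∧ Subgroup.closure (coords q) ≠ ⊤},
      ∃ n : M, Subgroup.closure (coords (cjT (n : G)⁻¹ q.1)) ≤ K := by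
    rintro ⟨q, h1, h2, h3⟩
    obtain ⟨n, hn, hn'⟩ := hbad _ h2 h3
    refine ⟨⟨n, hn⟩, ?_⟩
    rw [cjT_closure]
    rintro _ ⟨x, hx, rfl⟩
    change n⁻¹ * x * n⁻¹⁻¹ ∈ K
    rw [inv_inv]
    exact hn' x hx
  choose n0 hn0 using hex
  rw [← Nat.card_prod, ← Nat.card_prod]
  have hback : ∀ (n : M) (q : Fin g → G × G), surfaceWord q = 1 →
      Subgroup.closure (coords q) ⊔ M = ⊤ → Subgroup.closure (coords q) ≤ K →
      surfaceWord (cjT (n : G) q) = 1 ∧ Subgroup.closure (coords (cjT (n : G) q)) ⊔ M = ⊤ ∧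
        Subgroup.closure (coords (cjT (n : G) q)) ≠ ⊤ := by
    intro n q h1 h2 h3
    refine ⟨cjT_word h1 _, cjT_sup h2 _, fun h4 => hKt ?_⟩
    rw [cjT_closure] at h4
    have h5 : Subgroup.closure (coords q) = ⊤ := by
      have h6 := congrArg (Subgroup.map (MulAut.conj (n : G)⁻¹).toMonoidHom) h4
      rw [Subgroup.map_map, Subgroup.map_top_of_surjective _ (MulAut.conj (n : G)⁻¹).surjective] at h6
      rw [← h6]
      symm
      have h7 : (MulAut.conj (n : G)⁻¹).toMonoidHom.comp (MulAut.conj (n : G)).toMonoidHom =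
          MonoidHom.id G := by
        ext x
        change (n : G)⁻¹ * ((n : G) * x * (n : G)⁻¹) * (n : G)⁻¹⁻¹ = x
        group
      rw [h7, Subgroup.map_id]
    rw [eq_top_iff, ← h5]
    exact h3
  -- the difference is central
  have hdif : ∀ (n : M) (q : Fin g → G × G) (h1 : surfaceWord q = 1)
      (h2 : Subgroup.closure (coords q) ⊔ M = ⊤) (h3 : Subgroup.closure (coords q) ≤ K),
      (((n0 ⟨cjT (n : G) q, hback n q h1 h2 h3⟩)⁻¹ * n : M) : G) ∈ Subgroup.center G := by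
    intro n q h1 h2 h3
    refine cj_center hE hKc h3 h2 (SetLike.coe_mem _) ?_
    have h4 := hn0 ⟨cjT (n : G) q, hback n q h1 h2 h3⟩
    rw [cjT_mul] at h4
    exact h4
  refine Nat.card_congr
    { toFun := fun x => (n0 x.1 * x.2.1, ⟨cjT ((n0 x.1 : G)⁻¹) x.1.1, ?_, ?_, ?_⟩)
      invFun := fun y => (⟨cjT (y.1 : G) y.2.1, hback y.1 y.2.1 y.2.2.1 y.2.2.2.1 y.2.2.2.2⟩,
        ⟨(n0 ⟨cjT (y.1 : G) y.2.1, hback y.1 y.2.1 y.2.2.1 y.2.2.2.1 y.2.2.2.2⟩)⁻¹ * y.1,
          hdif y.1 y.2.1 y.2.2.1 y.2.2.2.1 y.2.2.2.2⟩)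
      left_inv := ?_
      right_inv := ?_ }
  · exact cjT_word x.1.2.1 _
  · exact cjT_sup x.1.2.2.1 _
  · exact hn0 x.1
  · rintro ⟨x, z⟩
    have h1 : cjT ((n0 x * z.1 : M) : G) (cjT ((n0 x : G)⁻¹) x.1) = x.1 := by
      rw [cjT_mul]
      have h2 : ((n0 x * z.1 : M) : G) * (n0 x : G)⁻¹ = ((z.1 : M) : G) := by
        have h5 : ((z.1 : M) : G) ∈ Subgroup.center G := z.2
        rw [Subgroup.coe_mul, Subgroup.mem_center_iff.1 h5 (n0 x : G), mul_inv_cancel_right]
      rw [h2]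
      exact cjT_center z.2 _
    have h3 : ∀ h, (⟨cjT ((n0 x * z.1 : M) : G) (cjT ((n0 x : G)⁻¹) x.1), h⟩ :
        {q : Fin g → G × G // surfaceWord q = 1 ∧
          Subgroup.closure (coords q) ⊔ M = ⊤ ∧ Subgroup.closure (coords q) ≠ ⊤}) = x :=
      fun h => Subtype.ext h1
    refine Prod.ext (h3 _) (Subtype.ext ?_)
    change (n0 _)⁻¹ * (n0 x * z.1) = z.1
    rw [h3, inv_mul_cancel_left]
  · rintro ⟨n, q⟩
    have hz := hdif n q.1 q.2.1 q.2.2.1 q.2.2.2
    set m := n0 ⟨cjT (n : G) q.1, hback n q.1 q.2.1 q.2.2.1 q.2.2.2⟩ with hm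
    refine Prod.ext ?_ (Subtype.ext ?_)
    · change m * (m⁻¹ * n) = n
      rw [mul_inv_cancel_left]
    · change cjT ((m : G)⁻¹) (cjT (n : G) q.1) = q.1
      rw [cjT_mul]
      exact cjT_center hz _

/-- **The number of surjections.** -/
theorem surj_small {K B R : Subgroup G} (hE : Ext M) (hA : Act p M K B R) (hKM : K ⊔ M = ⊤)
    (hKt : K ≠ ⊤) (hKc : ∀ x ∈ K, x ∈ M → x ∈ Subgroup.center G) (hcK : Subgroup.center G ≤ K)
    (hbad : ∀ L : Subgroup G, L ⊔ M = ⊤ → L ≠ ⊤ → ∃ n ∈ M, ∀ x ∈ L, n⁻¹ * x * n ∈ K) {g N : ℕ}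
    (hg : 2 ≤ g) (hd : p ^ N * (p - 1) ∣ g - 1) : (p : ℤ) ^ (N + 1) ∣ (numSurj g G : ℤ) := by
  obtain ⟨n, rfl⟩ : ∃ n, g = n + 1 := ⟨g - 1, by omega⟩
  rw [Nat.add_sub_cancel] at hd
  set z := Nat.card ((Subgroup.center G).subgroupOf M) with hz
  have hz0 : 0 < z := Nat.card_pos
  choose c hc1 hc2 using fibre_both hE hA hKM hKc hcK hd
  set T := Nat.card {q : Fin (n + 1) → G × G // surfaceWord q = 1 ∧
        Subgroup.closure (coords q) ⊔ M = ⊤ ∧ Subgroup.closure (coords q) ≤ K} with hT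
  set W := Nat.card {q : Fin (n + 1) → G × G // surfaceWord q = 1 ∧
        Subgroup.closure (coords q) ⊔ M = ⊤ ∧ True} with hW
  set D := Nat.card {q : Fin (n + 1) → G × G // surfaceWord q = 1 ∧
        Subgroup.closure (coords q) ⊔ M = ⊤ ∧ Subgroup.closure (coords q) ≠ ⊤} with hD
  have hT1 : T = z ^ (2 * (n + 1)) * ∑ r, c r := by
    rw [hT, ← fiber_sum (fun q : Fin (n + 1) → G × G => surfaceWord q = 1 ∧
        Subgroup.closure (coords q) ⊔ M = ⊤ ∧ Subgroup.closure (coords q) ≤ K)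
        (fun q => mapT (QuotientGroup.mk' M) q), Finset.mul_sum]
    exact Finset.sum_congr rfl fun r _ => hc1 r
  have hW1 : (p : ℤ) ^ (N + 1) ∣ (W : ℤ) - Nat.card M * z * ((∑ r, c r : ℕ) : ℤ) := by
    rw [hW, ← fiber_sum (fun q : Fin (n + 1) → G × G => surfaceWord q = 1 ∧
        Subgroup.closure (coords q) ⊔ M = ⊤ ∧ True)
        (fun q => mapT (QuotientGroup.mk' M) q)]
    push_cast
    rw [Finset.mul_sum, ← Finset.sum_sub_distrib]
    exact Finset.dvd_sum fun r _ => hc2 r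
  have hD1 : D * z = Nat.card M * T := bad_card hE hKt hKc hbad (n + 1)
  have hD2 : D = Nat.card M * z * z ^ (2 * n) * ∑ r, c r := by
    apply Nat.eq_of_mul_eq_mul_right hz0
    rw [hD1, hT1]
    ring
  have hsum : W = numSurj (n + 1) G + D := by
    rw [hW, hD]
    unfold numSurj
    have : Fintype {q : Fin (n + 1) → G × G // surfaceWord q = 1 ∧
        Subgroup.closure (coords q) ⊔ M = ⊤ ∧ True} := Fintype.ofFinite _
    rw [Nat.card_eq_fintype_card, Nat.card_eq_fintype_card, Nat.card_eq_fintype_card,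
      Fintype.card_subtype, Fintype.card_subtype, Fintype.card_subtype,
      ← Finset.card_filter_add_card_filter_not
        (s := Finset.univ.filter fun q : Fin (n + 1) → G × G => surfaceWord q = 1 ∧
        Subgroup.closure (coords q) ⊔ M = ⊤ ∧ True)
        (fun q => Subgroup.closure (coords q) = ⊤)]
    congr 1
    · rw [Finset.filter_filter]
      congr 1
      apply Finset.filter_congr
      intro q _
      constructor
      · rintro ⟨⟨h1, _⟩, h2⟩
        exact ⟨h1, h2⟩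
      · rintro ⟨h1, h2⟩
        exact ⟨⟨h1, by rw [h2, top_sup_eq], trivial⟩, h2⟩
    · rw [Finset.filter_filter]
      congr 1
      apply Finset.filter_congr
      intro q _
      constructor
      · rintro ⟨⟨h1, h2, _⟩, h3⟩
        exact ⟨h1, h2, h3⟩
      · rintro ⟨h1, h2, h3⟩
        exact ⟨⟨h1, h2, trivial⟩, h3⟩
  have hpz : ¬ p ∣ z := by
    intro h
    exact hA.prime (h.trans (Subgroup.card_subgroup_dvd_card _))
  have h3 : z ^ (2 * n) ≡ 1 [MOD p ^ (N + 1)] := unit_pow hpz (Dvd.dvd.mul_left hd 2)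
  have h4 : ((p ^ (N + 1) : ℕ) : ℤ) ∣ ((1 : ℕ) : ℤ) - ((z ^ (2 * n) : ℕ) : ℤ) :=
    (Nat.modEq_iff_dvd).1 h3
  obtain ⟨k, hk⟩ := h4
  obtain ⟨l, hl⟩ := hW1
  refine ⟨l + Nat.card M * z * ((∑ r, c r : ℕ) : ℤ) * k, ?_⟩
  have h5 : (numSurj (n + 1) G : ℤ) = W - D := by
    rw [hsum]
    push_cast
    ring
  rw [h5, hD2]
  push_cast at hk hl ⊢
  have h6 : (z : ℤ) ^ (2 * n) = 1 - (p : ℤ) ^ (N + 1) * k := by linarith
  have h7 : (W : ℤ) = (p : ℤ) ^ (N + 1) * l + Nat.card M * z * ∑ r, (c r : ℤ) := by linarith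
  rw [h6, h7]
  ring

end

end Pool.Agent.Helper15.SV
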