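import Pool.Agent.Helper15.SV.Tr

/-!
# Commuting operators
-/

open scoped Classical BigOperators
open Representation Pool.Agent.Helper884.IC Pool.Agent.Y63.AWC Pool.Agent.Helper15.AW

set_option linter.unusedSectionVars false
set_option linter.unusedVariables false

noncomputable section

namespace Pool.Agent.Helper15.SV

open Pool.Agent.Y63.KR (surfaceWord coords)

section

variable {G : Type} [Group G] [Fintype G] {M : Subgroup G} [M.Normal] {p : ℕ} [hp : Fact p.Prime]
  {V : Type} [AddCommGroup V] [Module ℂ V] [FiniteDimensional ℂ V]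

/-- the action on `R` -/
def actB (rho : Representation ℂ M V) {B R : Subgroup G}
    (hRB : B ≤ Subgroup.normalizer (R : Set G)) : B.comap (fstH rho) →* MulAut R :=
  R.normalizerMonoidHom.comp ((Subgroup.inclusion hRB).comp ((fstH rho).subgroupComap B))

lemma actB_apply (rho : Representation ℂ M V) {B R : Subgroup G}
    (hRB : B ≤ Subgroup.normalizer (R : Set G)) (x : B.comap (fstH rho)) (r : R) :
    ((actB rho hRB x r : R) : G) = fstH rho x * r * (fstH rho x)⁻¹ := rfl

/-- the operators of a group acting on `M` and irreducibly on `R` commute -/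
theorem comm_all (rho : Representation ℂ M V) (hr : rho.IsIrreducible)
    (hsurj : Function.Surjective (fstH rho))
    (hfull : ∀ m : M, (m : G) ∉ Subgroup.center G → rho.character m = 0)
    {B R : Subgroup G} (hR : IsPGroup p R) (hM : ¬ p ∣ Nat.card M)
    (hC : ∀ m ∈ M, (∀ s ∈ R, s * m = m * s) → m ∈ Subgroup.center G)
    (hBc : ∀ x ∈ B, ∀ y ∈ B, x * y * x⁻¹ * y⁻¹ ∈ Subgroup.center G)
    (hRB : B ≤ Subgroup.normalizer (R : Set G)) (hRc : ∀ r ∈ R, ∀ s ∈ R, r * s = s * r)
    (hR1 : R ≠ ⊥) (hirr : ∀ S : Subgroup G, S ≤ R → (∀ b ∈ B, ∀ s ∈ S, b * s * b⁻¹ ∈ S) →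
      S = ⊥ ∨ S = R) (x y : Khat rho) (hx : fstH rho x ∈ B) (hy : fstH rho y ∈ B) :
    sndH rho x * sndH rho y = sndH rho y * sndH rho x := by
  let _ : CommGroup R := { (inferInstance : Group R) with
    mul_comm := fun a b => Subtype.ext (hRc a a.2 b b.2) }
  have hnt : Nontrivial R := (Subgroup.nontrivial_iff_ne_bot R).2 hR1
  have hcyc : IsCyclic (actB rho hRB).range := by
    refine cyclic_of_irr (actB rho hRB) ?_ ?_
    · intro a b
      have h1 : (actB rho hRB) (a * b * a⁻¹ * b⁻¹) = 1 := by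
        ext r
        rw [actB_apply]
        have h2 := hBc _ a.2 _ b.2
        have h3 : fstH rho ((a * b * a⁻¹ * b⁻¹ : B.comap (fstH rho)) : Khat rho) =
            fstH rho a * fstH rho b * (fstH rho a)⁻¹ * (fstH rho b)⁻¹ := by
          simp only [Subgroup.coe_mul, Subgroup.coe_inv, map_mul, map_inv]
        rw [h3, ← Subgroup.mem_center_iff.1 h2, mul_inv_cancel_right]
        rfl
      rw [map_mul, map_mul, map_mul, map_inv, map_inv, mul_inv_eq_one, mul_inv_eq_iff_eq_mul] at h1
      exact h1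
    · intro S hS
      rcases hirr (S.map R.subtype) (Subgroup.map_subtype_le S) (by
        rintro b hb _ ⟨s, hs, rfl⟩
        obtain ⟨t, ht⟩ := hsurj b
        refine ⟨actB rho hRB ⟨t, by rw [Subgroup.mem_comap, ht]; exact hb⟩ s, hS _ s hs, ?_⟩
        change fstH rho t * (s : G) * (fstH rho t)⁻¹ = _
        rw [ht]
        rfl) with h1 | h1
      · left
        exact (Subgroup.map_eq_bot_iff_of_injective S R.subtype_injective).1 h1
      · right
        apply Subgroup.map_injective R.subtype_injective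
        rw [h1, ← MonoidHom.range_eq_map, Subgroup.range_subtype]
  -- the kernel
  have hker : ∀ (u : B.comap (fstH rho)), actB rho hRB u = 1 → ∀ v : B.comap (fstH rho),
      sndH rho v * sndH rho u = sndH rho u * sndH rho v := by
    intro u hu v
    refine comm_of_trace rho hr v u ?_ ?_
    · simp only [map_mul, map_inv]
      exact hBc _ v.2 _ u.2
    · refine trace_ne (p := p) rho hr hfull hR hM hC u fun s hs => ?_
      have h1 := congrArg (fun F : MulAut R => ((F ⟨s, hs⟩ : R) : G)) hu
      change fstH rho u * s * (fstH rho u)⁻¹ = s at h1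
      rw [mul_inv_eq_iff_eq_mul] at h1
      exact h1.symm
  obtain ⟨⟨_, x0, rfl⟩, hgen⟩ := IsCyclic.exists_generator (α := (actB rho hRB).range)
  have hdec : ∀ u : B.comap (fstH rho), ∃ (i : ℤ) (v : B.comap (fstH rho)),
      actB rho hRB v = 1 ∧ u = x0 ^ i * v := by
    intro u
    obtain ⟨i, hi⟩ := Subgroup.mem_zpowers_iff.1 (hgen ⟨actB rho hRB u, u, rfl⟩)
    refine ⟨i, (x0 ^ i)⁻¹ * u, ?_, by rw [mul_inv_cancel_left]⟩
    have h1 := congrArg Subtype.val hi
    change (actB rho hRB x0) ^ i = actB rho hRB u at h1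
    rw [map_mul, map_inv, map_zpow, h1, inv_mul_cancel]
  obtain ⟨i, v, hv, hxv⟩ := hdec ⟨x, hx⟩
  obtain ⟨j, w, hw, hyw⟩ := hdec ⟨y, hy⟩
  have hx' : x = (x0 : Khat rho) ^ i * v := congrArg Subtype.val hxv
  have hy' : y = (x0 : Khat rho) ^ j * w := congrArg Subtype.val hyw
  have e1 := hker v hv (x0 ^ j)
  have e2 := hker w hw (x0 ^ i)
  have e3 := hker v hv w
  rw [Subgroup.coe_zpow, map_zpow] at e1 e2
  rw [hx', hy', map_mul, map_mul, map_zpow, map_zpow]
  set t : (Module.End ℂ V)ˣ := sndH rho (x0 : Khat rho) with ht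
  set a : (Module.End ℂ V)ˣ := sndH rho (v : Khat rho) with ha
  set b : (Module.End ℂ V)ˣ := sndH rho (w : Khat rho) with hb
  calc t ^ i * a * (t ^ j * b) = t ^ i * (a * t ^ j) * b := by group
    _ = t ^ i * t ^ j * (a * b) := by rw [← e1]; group
    _ = t ^ j * t ^ i * (b * a) := by rw [e3, ← zpow_add, ← zpow_add, add_comm]
    _ = t ^ j * (t ^ i * b) * a := by group
    _ = t ^ j * b * (t ^ i * a) := by rw [e2]; group

end

end Pool.Agent.Helper15.SV
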