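import Mathlib

/-!
# Irreducible actions of abelian groups are cyclic
-/

open scoped Classical BigOperators

set_option linter.unusedSectionVars false

noncomputable section

namespace Pool.Agent.Helper15.SV

variable {R : Type} [CommGroup R] [Finite R] [Nontrivial R] {B : Type} [Group B]

/-- the endomorphism of the additive group -/
def ends (f : B →* MulAut R) : B →* AddMonoid.End (Additive R) where
  toFun b := MonoidHom.toAdditive (f b).toMonoidHom
  map_one' := by
    ext x
    change Additive.ofMul ((f 1) (Additive.toMul x)) = x
    rw [map_one]
    rfl
  map_mul' a b := by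
    ext x
    change Additive.ofMul ((f (a * b)) (Additive.toMul x)) =
      Additive.ofMul ((f a) ((f b) (Additive.toMul x)))
    rw [map_mul]
    rfl

lemma ends_apply (f : B →* MulAut R) (b : B) (x : R) :
    ends f b (Additive.ofMul x) = Additive.ofMul (f b x) := rfl

/-- a group acting irreducibly through commuting automorphisms acts through a cyclic group -/
theorem cyclic_of_irr (f : B →* MulAut R) (hc : ∀ a b : B, f a * f b = f b * f a)
    (hirr : ∀ S : Subgroup R, (∀ b : B, ∀ x ∈ S, f b x ∈ S) → S = ⊥ ∨ S = ⊤) :
    IsCyclic f.range := by
  have hcomm : ∀ x ∈ Set.range (ends f), ∀ y ∈ Set.range (ends f), x * y = y * x := by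
    rintro _ ⟨a, rfl⟩ _ ⟨b, rfl⟩
    have h1 : ends f (a * b) = ends f (b * a) := by
      ext x
      change Additive.ofMul ((f (a * b)) (Additive.toMul x)) =
        Additive.ofMul ((f (b * a)) (Additive.toMul x))
      rw [map_mul, map_mul, hc]
    rw [← map_mul, ← map_mul, h1]
  let _ : CommRing (Subring.closure (Set.range (ends f))) :=
    Subring.closureCommRingOfComm hcomm
  -- the elements of the ring commute with the action
  have hcm : ∀ x ∈ Subring.closure (Set.range (ends f)), ∀ b : B,
      x * ends f b = ends f b * x := by
    intro x hx b
    induction hx using Subring.closure_induction with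
    | mem y hy => exact hcomm y hy _ ⟨b, rfl⟩
    | zero => rw [zero_mul, mul_zero]
    | one => rw [one_mul, mul_one]
    | add y z _ _ hy hz => rw [add_mul, mul_add, hy, hz]
    | neg y _ hy =>
      ext z
      have h1 := congrArg (fun F : AddMonoid.End (Additive R) => F z) hy
      change y (ends f b z) = ends f b (y z) at h1
      change -(y (ends f b z)) = ends f b (-(y z))
      rw [map_neg, h1]
    | mul y z _ _ hy hz => rw [mul_assoc, hz, ← mul_assoc, hy, mul_assoc]
  have hinj : ∀ x ∈ Subring.closure (Set.range (ends f)), x ≠ 0 →
      Function.Injective x := by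
    intro x hx hx0
    let S : Subgroup R :=
      { carrier := {r | x (Additive.ofMul r) = 0}
        one_mem' := map_zero x
        mul_mem' := by
          intro a b ha hb
          change x (Additive.ofMul (a * b)) = 0
          rw [ofMul_mul, map_add]
          rw [show x (Additive.ofMul a) = 0 from ha, show x (Additive.ofMul b) = 0 from hb, add_zero]
        inv_mem' := by
          intro a ha
          change x (Additive.ofMul a⁻¹) = 0
          rw [ofMul_inv, map_neg]
          rw [show x (Additive.ofMul a) = 0 from ha, neg_zero] }
    rcases hirr S (by
      intro b r hr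
      change x (Additive.ofMul (f b r)) = 0
      have h1 := congrArg (fun F : AddMonoid.End (Additive R) => F (Additive.ofMul r)) (hcm x hx b)
      change x (Additive.ofMul (f b r)) = ends f b (x (Additive.ofMul r)) at h1
      rw [h1, show x (Additive.ofMul r) = 0 from hr, map_zero]) with h1 | h1
    · rw [injective_iff_map_eq_zero]
      intro r hr
      have h2 : Additive.toMul r ∈ S := hr
      rw [h1, Subgroup.mem_bot] at h2
      exact h2
    · exfalso
      apply hx0
      ext r
      have h2 : Additive.toMul r ∈ S := by rw [h1]; trivial
      exact h2
  have hnz : NoZeroDivisors (Subring.closure (Set.range (ends f))) := by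
    refine ⟨fun {a b} hab => ?_⟩
    by_contra hcon
    push Not at hcon
    obtain ⟨ha, hb⟩ := hcon
    have ha' : (a : AddMonoid.End (Additive R)) ≠ 0 := fun h => ha (Subtype.ext h)
    have hb' : (b : AddMonoid.End (Additive R)) ≠ 0 := fun h => hb (Subtype.ext h)
    have hfin : Finite (Additive R) := inferInstanceAs (Finite R)
    have h1 := Finite.surjective_of_injective (hinj _ b.2 hb')
    apply ha'
    ext y
    obtain ⟨z, rfl⟩ := h1 y
    have h2 := congrArg (fun F : Subring.closure (Set.range (ends f)) =>
      (F : AddMonoid.End (Additive R)) z) hab
    exact h2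
  have hnt : Nontrivial (Subring.closure (Set.range (ends f))) := by
    refine ⟨⟨0, 1, fun h => ?_⟩⟩
    obtain ⟨r, hr⟩ := exists_ne (1 : R)
    apply hr
    have h2 := congrArg (fun F : Subring.closure (Set.range (ends f)) =>
      (F : AddMonoid.End (Additive R)) (Additive.ofMul r)) h
    exact h2.symm
  have hdom : IsDomain (Subring.closure (Set.range (ends f))) := NoZeroDivisors.to_isDomain _
  -- the embedding
  let F : f.range →* Subring.closure (Set.range (ends f)) :=
    { toFun := fun x => ⟨MonoidHom.toAdditive (x : MulAut R).toMonoidHom, by
        obtain ⟨b, hb⟩ := x.2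
        apply Subring.subset_closure
        refine ⟨b, ?_⟩
        change MonoidHom.toAdditive (f b).toMonoidHom = _
        rw [hb]⟩
      map_one' := rfl
      map_mul' := fun _ _ => rfl }
  have hfinr : Finite f.range := inferInstance
  refine isCyclic_of_injective_ringHom (R := Subring.closure (Set.range (ends f))) F ?_
  intro x y hxy
  have h1 := congrArg Subtype.val hxy
  apply Subtype.ext
  ext r
  exact congrArg (fun G : AddMonoid.End (Additive R) => Additive.toMul (G (Additive.ofMul r))) h1

end Pool.Agent.Helper15.SV
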