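import Pool.Agent.Helper15.SV.Wd
import Pool.Agent.Helper15.AWC.Zsum

/-!
# Fully ramified characters
-/

open scoped Classical BigOperators
open Representation Pool.Agent.Helper884.IC Pool.Agent.Y63.AWC Pool.Agent.Helper15.AW

set_option linter.unusedSectionVars false
set_option linter.unusedVariables false

noncomputable section

namespace Pool.Agent.Helper15.SV

open Pool.Agent.Y63.KR (surfaceWord coords dg cod dg_spec cod_spec)

section

variable {G : Type} [Group G] [Fintype G] {M : Subgroup G} [M.Normal]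
  {V : Type} [AddCommGroup V] [Module ℂ V] [FiniteDimensional ℂ V]

/-- the structure of `M` -/
structure Ext (M : Subgroup G) : Prop where
  nonc : ¬ M ≤ Subgroup.center G
  small : ∀ L : Subgroup G, L.Normal → L ≤ Subgroup.center G ∨ M ≤ L
  comm : ⁅M, M⁆ ≤ Subgroup.center G
  gen : M ≤ ⁅M, (⊤ : Subgroup G)⁆
  cent : ∀ m ∈ M, m ∈ Subgroup.center G → m ∈ ⁅M, M⁆

/-- central elements act by scalars -/
lemma cent_scalar (rho : Representation ℂ M V) (hr : rho.IsIrreducible) (z : M)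
    (hz : (z : G) ∈ Subgroup.center G) :
    ∃ c : ℂ, c ≠ 0 ∧ rho z = c • 1 ∧ rho z⁻¹ = c⁻¹ • 1 := by
  have hnt := irr_nontrivial rho hr
  obtain ⟨c, hc⟩ := comm_scalar rho hr (jhat rho z) hz
  rw [jhat_snd] at hc
  have hinv : rho z⁻¹ * rho z = 1 := by rw [← map_mul, inv_mul_cancel, map_one]
  have hc0 : c ≠ 0 := by
    rintro rfl
    rw [hc, zero_smul, mul_zero] at hinv
    exact zero_ne_one hinv
  refine ⟨c, hc0, hc, ?_⟩
  rw [hc, mul_smul_comm, mul_one] at hinv
  rw [← hinv, smul_smul, inv_mul_cancel₀ hc0, one_smul]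

lemma smul_one_eq [Nontrivial V] {c : ℂ} (h : c • (1 : Module.End ℂ V) = 1) : c = 1 := by
  obtain ⟨v, hv⟩ := exists_ne (0 : V)
  have h8 := congrArg (fun S : Module.End ℂ V => S v) h
  simp only [Module.End.one_apply, LinearMap.smul_apply] at h8
  have h9 : (c - 1) • v = 0 := by rw [sub_smul, one_smul, h8, sub_self]
  rcases smul_eq_zero.1 h9 with h10 | h10
  · exact sub_eq_zero.1 h10
  · exact absurd h10 hv

lemma char_cent (rho : Representation ℂ M V) {z : M} {c : ℂ} (hc : rho z = c • 1) (m : M) :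
    rho.character (z * m) = c * rho.character m := by
  change LinearMap.trace ℂ V (rho (z * m)) = c * LinearMap.trace ℂ V (rho m)
  rw [map_mul, hc, smul_mul_assoc, one_mul, map_smul, smul_eq_mul]

/-- the elements whose commutators act trivially -/
def nul (rho : Representation ℂ M V) (hM : ⁅M, M⁆ ≤ Subgroup.center G) : Subgroup G where
  carrier := {x | ∃ h : x ∈ M, ∀ k : M, rho (⟨x, h⟩ * k * ⟨x, h⟩⁻¹ * k⁻¹) = 1}
  one_mem' := ⟨M.one_mem, fun k => by
    have : (⟨1, M.one_mem⟩ : M) = 1 := rfl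
    rw [this]
    simp⟩
  mul_mem' := by
    rintro a b ⟨ha, ha'⟩ ⟨hb, hb'⟩
    refine ⟨M.mul_mem ha hb, fun k => ?_⟩
    have h1 : (⟨a * b, M.mul_mem ha hb⟩ : M) = ⟨a, ha⟩ * ⟨b, hb⟩ := rfl
    have h2 : (⟨a, ha⟩ * ⟨b, hb⟩ : M) * k * (⟨a, ha⟩ * ⟨b, hb⟩)⁻¹ * k⁻¹ =
        ⟨a, ha⟩ * (⟨b, hb⟩ * k * (⟨b, hb⟩)⁻¹ * k⁻¹) * ⟨a, ha⟩⁻¹ * (⟨a, ha⟩ * k * ⟨a, ha⟩⁻¹ * k⁻¹) := by
      group
    rw [h1, h2, map_mul, ha' k, mul_one, map_mul, map_mul, hb' k, mul_one, ← map_mul,
      mul_inv_cancel, map_one]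
  inv_mem' := by
    rintro a ⟨ha, ha'⟩
    refine ⟨M.inv_mem ha, fun k => ?_⟩
    have h1 : (⟨a⁻¹, M.inv_mem ha⟩ : M) = (⟨a, ha⟩ : M)⁻¹ := rfl
    have h2 : (⟨a, ha⟩ : M)⁻¹ * k * ((⟨a, ha⟩ : M)⁻¹)⁻¹ * k⁻¹ =
        (⟨a, ha⟩ : M)⁻¹ * (⟨a, ha⟩ * k * ⟨a, ha⟩⁻¹ * k⁻¹)⁻¹ * ⟨a, ha⟩ := by group
    have h3 : rho (⟨a, ha⟩ * k * ⟨a, ha⟩⁻¹ * k⁻¹)⁻¹ = 1 := by
      have h4 : rho (⟨a, ha⟩ * k * ⟨a, ha⟩⁻¹ * k⁻¹)⁻¹ *
          rho (⟨a, ha⟩ * k * ⟨a, ha⟩⁻¹ * k⁻¹) = 1 := by
        rw [← map_mul, inv_mul_cancel, map_one]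
      rwa [ha' k, mul_one] at h4
    rw [h1, h2, map_mul, map_mul, h3, mul_one, ← map_mul, inv_mul_cancel, map_one]

lemma nul_normal (rho : Representation ℂ M V) (hM : ⁅M, M⁆ ≤ Subgroup.center G) :
    (nul rho hM).Normal := by
  refine ⟨?_⟩
  rintro x ⟨hx, hx'⟩ g
  have hm : g * x * g⁻¹ ∈ M := (inferInstance : M.Normal).conj_mem x hx g
  refine ⟨hm, fun k => ?_⟩
  rw [← hx' (MulAut.conjNormal g⁻¹ k)]
  congr 1
  apply Subtype.ext
  have h1 : x * ((MulAut.conjNormal g⁻¹ k : M) : G) * x⁻¹ * ((MulAut.conjNormal g⁻¹ k : M) : G)⁻¹ ∈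
      Subgroup.center G := by
    apply hM
    rw [← commutatorElement_def]
    exact Subgroup.commutator_mem_commutator hx (MulAut.conjNormal g⁻¹ k).2
  change g * x * g⁻¹ * k * (g * x * g⁻¹)⁻¹ * (k : G)⁻¹ =
    x * ((MulAut.conjNormal g⁻¹ k : M) : G) * x⁻¹ * ((MulAut.conjNormal g⁻¹ k : M) : G)⁻¹
  have h2 := Subgroup.mem_center_iff.1 h1 g
  have h3 : g * x * g⁻¹ * k * (g * x * g⁻¹)⁻¹ * (k : G)⁻¹ =
    g * (x * ((MulAut.conjNormal g⁻¹ k : M) : G) * x⁻¹ *
      ((MulAut.conjNormal g⁻¹ k : M) : G)⁻¹) * g⁻¹ := by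
    rw [MulAut.conjNormal_apply]
    group
  rw [h3, h2, mul_inv_cancel_right]

/-- the characters which are not trivial on the center vanish off the center -/
theorem full_of (hE : Ext M) (rho : Representation ℂ M V) (hr : rho.IsIrreducible)
    (hne : ¬ ∀ z : M, (z : G) ∈ Subgroup.center G → rho.character z = rho.character 1) :
    ∀ m : M, (m : G) ∉ Subgroup.center G → rho.character m = 0 := by
  have hnt := irr_nontrivial rho hr
  intro m hm
  have h1 : ¬ (m : G) ∈ nul rho hE.comm := by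
    intro h
    rcases hE.small _ (nul_normal rho hE.comm) with h2 | h2
    · exact hm (h2 h)
    · apply hne
      -- all commutators act trivially
      have h3 : ⁅M, M⁆ ≤ (rho.asGroupHom.ker).map M.subtype := by
        rw [Subgroup.commutator_le]
        intro a ha b hb
        obtain ⟨ha', ha2⟩ := h2 ha
        refine ⟨⟨a, ha⟩ * ⟨b, hb⟩ * ⟨a, ha⟩⁻¹ * ⟨b, hb⟩⁻¹, ?_, rfl⟩
        change rho.asGroupHom _ = 1
        exact Units.ext (ha2 ⟨b, hb⟩)
      intro z hz
      obtain ⟨w, hw, hwz⟩ := h3 (hE.cent z z.2 hz)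
      have hwz' : w = z := Subtype.ext hwz
      rw [← hwz']
      have h4 : rho w = 1 := congrArg (fun u : (Module.End ℂ V)ˣ => (u : Module.End ℂ V)) hw
      have h5 := char_cent rho (z := w) (c := 1) (by rw [h4, one_smul]) 1
      rw [mul_one, one_mul] at h5
      exact h5
  have h2 : ∃ k : M, rho (m * k * m⁻¹ * k⁻¹) ≠ 1 := by
    by_contra hcon
    push Not at hcon
    exact h1 ⟨m.2, hcon⟩
  obtain ⟨k, hk⟩ := h2
  have hz : ((m * k * m⁻¹ * k⁻¹ : M) : G) ∈ Subgroup.center G := by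
    apply hE.comm
    have := Subgroup.commutator_mem_commutator m.2 k.2
    rw [commutatorElement_def] at this
    exact this
  obtain ⟨c, hc0, hc, hc'⟩ := cent_scalar rho hr _ hz
  have h3 : k * m * k⁻¹ = (m * k * m⁻¹ * k⁻¹)⁻¹ * m := by
    have h4 : (m * k * m⁻¹ * k⁻¹)⁻¹ * m = k * m * k⁻¹ * (m⁻¹ * m) := by group
    rw [h4, inv_mul_cancel, mul_one]
  have h4 : rho.character (k * m * k⁻¹) = rho.character m := by
    rw [rho.char_conj]
  rw [h3, char_cent rho hc'] at h4
  have h5 : (c⁻¹ - 1) * rho.character m = 0 := by rw [sub_mul, one_mul, h4, sub_self]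
  rcases mul_eq_zero.1 h5 with h6 | h6
  · exfalso
    apply hk
    have h7 : c = 1 := by
      rw [sub_eq_zero] at h6
      rw [← inv_inv c, h6, inv_one]
    rw [hc, h7, one_smul]
  · exact h6

/-- these characters are invariant -/
lemma inv_of {theta : M → ℂ} (hfull : ∀ m : M, (m : G) ∉ Subgroup.center G → theta m = 0) :
    Invariant theta := by
  intro g x y hy
  by_cases hx : (x : G) ∈ Subgroup.center G
  · have h1 : (y : G) = x := by
      rw [hy, Subgroup.mem_center_iff.1 hx g, mul_inv_cancel_right]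
    rw [Subtype.ext h1]
  · rw [hfull x hx, hfull y]
    intro h
    apply hx
    have h1 : (x : G) = g⁻¹ * y * g := by
      rw [hy]
      group
    rw [h1]
    have h2 := (inferInstance : (Subgroup.center G).Normal).conj_mem _ h g⁻¹
    rwa [inv_inv] at h2

/-- the degree of these characters -/
lemma norm_of (rho : Representation ℂ M V) (hr : rho.IsIrreducible)
    (hfull : ∀ m : M, (m : G) ∉ Subgroup.center G → rho.character m = 0) :
    rho.character 1 ^ 2 * (Nat.card ((Subgroup.center G).subgroupOf M) : ℂ) = Nat.card M := by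
  have hirr : IsIrrChar rho.character := ⟨V, _, _, ‹_›, rho, hr, rfl⟩
  rw [← Pool.Agent.Y63.KR.sum_char_inv hirr]
  have h1 : ∀ m : M, rho.character m * rho.character m⁻¹ =
      if m ∈ (Subgroup.center G).subgroupOf M then rho.character 1 ^ 2 else 0 := by
    intro m
    split_ifs with h
    · obtain ⟨c, hc0, hc, hc'⟩ := cent_scalar rho hr m h
      have e1 := char_cent rho hc 1
      have e2 := char_cent rho hc' 1
      rw [mul_one] at e1 e2
      rw [e1, e2]
      field_simp
    · rw [hfull m h, zero_mul]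
  rw [Finset.sum_congr rfl fun m _ => h1 m, ← Finset.sum_filter, Finset.sum_const, nsmul_eq_mul,
    mul_comm]
  congr 2
  rw [Nat.card_eq_fintype_card, Fintype.card_subtype]

/-- the sum over the center -/
lemma sum_cent (rho : Representation ℂ M V) (hr : rho.IsIrreducible)
    (hne : ¬ ∀ z : M, (z : G) ∈ Subgroup.center G → rho.character z = rho.character 1) :
    ∑ z : (Subgroup.center G).subgroupOf M, rho.character (z : M) = 0 := by
  push Not at hne
  obtain ⟨w, hw, hne⟩ := hne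
  obtain ⟨c, hc0, hc, _⟩ := cent_scalar rho hr w hw
  have h1 : ∑ z : (Subgroup.center G).subgroupOf M, rho.character (z : M) =
      ∑ z : (Subgroup.center G).subgroupOf M, rho.character (w * (z : M)) :=
    (Fintype.sum_equiv (Equiv.mulLeft (⟨w, hw⟩ : (Subgroup.center G).subgroupOf M)) _ _
      fun z => rfl).symm
  have h1' : ∑ z : (Subgroup.center G).subgroupOf M, rho.character (w * (z : M)) =
      ∑ z : (Subgroup.center G).subgroupOf M, c * rho.character (z : M) :=
    Finset.sum_congr rfl fun z _ => char_cent rho hc _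
  rw [h1', ← Finset.mul_sum] at h1
  have h2 : (c - 1) * ∑ z : (Subgroup.center G).subgroupOf M, rho.character (z : M) = 0 := by
    rw [sub_mul, one_mul, ← h1, sub_self]
  rcases mul_eq_zero.1 h2 with h3 | h3
  · exfalso
    apply hne
    have h4 := char_cent rho hc 1
    rw [mul_one, sub_eq_zero.1 h3, one_mul] at h4
    exact h4
  · exact h3

/-- an invariant character which is trivial on the center is trivial -/
theorem triv_of (hE : Ext M) (rho : Representation ℂ M V) (hr : rho.IsIrreducible)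
    (hinv : Invariant rho.character)
    (htr : ∀ z : M, (z : G) ∈ Subgroup.center G → rho.character z = rho.character 1) :
    ∀ m : M, rho.character m = 1 := by
  have hnt := irr_nontrivial rho hr
  have hdim : rho.character 1 ≠ 0 := one_ne ⟨V, _, _, ‹_›, rho, hr, rfl⟩
  -- the central elements act trivially
  have h1 : ∀ z : M, (z : G) ∈ Subgroup.center G → rho z = 1 := by
    intro z hz
    obtain ⟨c, hc0, hc, _⟩ := cent_scalar rho hr z hz
    have h2 := char_cent rho hc 1
    rw [mul_one, htr z hz] at h2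
    have h3 : c = 1 := by
      have h4 : (c - 1) * rho.character 1 = 0 := by rw [sub_mul, one_mul, ← h2, sub_self]
      rcases mul_eq_zero.1 h4 with h5 | h5
      · exact sub_eq_zero.1 h5
      · exact absurd h5 hdim
    rw [hc, h3, one_smul]
  -- all operators are scalars
  have hcm : ∀ a b : M, ((a * b * a⁻¹ * b⁻¹ : M) : G) ∈ Subgroup.center G := by
    intro a b
    apply hE.comm
    have := Subgroup.commutator_mem_commutator a.2 b.2
    rw [commutatorElement_def] at this
    exact this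
  have h2 : ∀ m : M, ∃ c : ℂ, rho m = c • 1 := by
    intro m
    refine scalar_of_comm rho hr _ fun n => ?_
    have h3 := h1 _ (hcm m n)
    rw [← map_mul, ← map_mul]
    have h4 : m * n = (m * n * m⁻¹ * n⁻¹) * (n * m) := by group
    rw [h4, map_mul, h3, one_mul]
  -- the operators are trivial
  have h3 : ∀ (m : M) (g : G), rho (m * MulAut.conjNormal g m⁻¹) = 1 := by
    intro m g
    obtain ⟨c, hc⟩ := h2 (MulAut.conjNormal g m⁻¹)
    obtain ⟨d, hd⟩ := h2 m⁻¹
    have e1 : rho.character (MulAut.conjNormal g m⁻¹) = rho.character m⁻¹ := by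
      refine hinv g m⁻¹ _ ?_
      rw [MulAut.conjNormal_apply]
    have e2 := char_cent rho hc 1
    have e3 := char_cent rho hd 1
    rw [mul_one] at e2 e3
    rw [e2, e3] at e1
    have e4 := mul_right_cancel₀ hdim e1
    rw [map_mul, hc, e4, ← hd, ← map_mul, mul_inv_cancel, map_one]
  have h4 : ⁅M, (⊤ : Subgroup G)⁆ ≤ (rho.asGroupHom.ker).map M.subtype := by
    rw [Subgroup.commutator_le]
    intro a ha b _
    refine ⟨⟨a, ha⟩ * MulAut.conjNormal b (⟨a, ha⟩ : M)⁻¹, ?_, ?_⟩
    · change rho.asGroupHom _ = 1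
      exact Units.ext (h3 ⟨a, ha⟩ b)
    · change a * ((MulAut.conjNormal b (⟨a, ha⟩ : M)⁻¹ : M) : G) = _
      rw [MulAut.conjNormal_apply, commutatorElement_def, Subgroup.coe_inv]
      group
  have h5 : ∀ m : M, rho m = 1 := by
    intro m
    obtain ⟨w, hw, hwm⟩ := h4 (hE.gen m.2)
    have hwm' : w = m := Subtype.ext hwm
    rw [← hwm']
    exact congrArg (fun u : (Module.End ℂ V)ˣ => (u : Module.End ℂ V)) hw
  have h6 : ∀ m : M, rho.character m = rho.character 1 := by
    intro m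
    have := char_cent rho (z := m) (c := 1) (by rw [h5, one_smul]) 1
    rwa [mul_one, one_mul] at this
  have h7 := Pool.Agent.Y63.KR.sum_char_inv (G := M) (chi := rho.character)
    ⟨V, _, _, ‹_›, rho, hr, rfl⟩
  rw [Finset.sum_congr rfl fun m _ => by rw [h6 m, h6 m⁻¹], Finset.sum_const, Finset.card_univ,
    nsmul_eq_mul, ← Nat.card_eq_fintype_card] at h7
  have h8 : rho.character 1 * rho.character 1 = 1 := by
    have h9 : (Nat.card M : ℂ) ≠ 0 := cardG_ne
    have h10 : (Nat.card M : ℂ) * (rho.character 1 * rho.character 1 - 1) = 0 := by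
      rw [mul_sub, h7, mul_one, sub_self]
    rcases mul_eq_zero.1 h10 with h11 | h11
    · exact absurd h11 h9
    · exact sub_eq_zero.1 h11
  intro m
  rw [h6, char_one]
  rw [char_one] at h8
  have h9 : Module.finrank ℂ V * Module.finrank ℂ V = 1 := by exact_mod_cast h8
  have h10 := Nat.eq_one_of_mul_eq_one_left h9
  rw [h10, Nat.cast_one]

end

end Pool.Agent.Helper15.SV
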