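import Pool.Agent.Helper15.SV.Sol2
import Pool.Agent.Helper15.QS.Min2

/-!
# The solvable case, and the reduction
-/

open scoped Classical BigOperators

set_option linter.unusedSectionVars false
set_option linter.unusedVariables false

noncomputable section

namespace Pool.Agent.Helper15.SV

open Pool.Agent.Y63.AWC (numWeights numRegularClasses)
open Pool.Agent.Y63.NV (Closed Reduced XP NavarroSum navarroSum_top free_form free_strong
  reduction' xp_closed pgroup_top)
open Pool.Agent.Helper15.AW
open Pool.Agent.Helper15.QS (AlmostSimple exists_index_p minimal_step)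

variable {p : ℕ} [hp : Fact p.Prime]

/-- the data of a solvable minimal group -/
theorem base_of {H : Type} [Group H] [Finite H] (hs : Group.IsSolvable H) (hR : Reduced p H)
    (hd : p ∣ Nat.card H) {N : Subgroup H} [hN : N.Normal] (hNc : ¬ N ≤ Subgroup.center H)
    (hsm : ∀ M : Subgroup H, M.Normal → M ≤ Subgroup.center H ∨ N ≤ M) (hq : PA2 p (H ⧸ N)) :
    ∃ (P1 : Subgroup H) (_ : P1.Normal), Base p N P1 := by
  obtain ⟨P, hPn, hPp, hPc, a, b, hab⟩ := hq
  have hPi : ¬ p ∣ P.index := by
    intro h
    have hcomm : ∀ x y : (H ⧸ N) ⧸ P, x * y = y * x := by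
      intro x y
      obtain ⟨x, rfl⟩ := QuotientGroup.mk'_surjective P x
      obtain ⟨y, rfl⟩ := QuotientGroup.mk'_surjective P y
      have h1 : x * y * x⁻¹ * y⁻¹ ∈ P := by
        have := hPc (Subgroup.commutator_mem_commutator (Subgroup.mem_top x) (Subgroup.mem_top y))
        rw [commutatorElement_def] at this
        exact this
      have h2 : QuotientGroup.mk' P (x * y * x⁻¹ * y⁻¹) = 1 := (QuotientGroup.eq_one_iff _).2 h1
      rw [map_mul, map_mul, map_mul, map_inv, map_inv, mul_inv_eq_one,
        mul_inv_eq_iff_eq_mul] at h2
      exact h2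
    obtain ⟨T, hT⟩ := exists_index_p (p := p) hcomm h
    have hTn : T.Normal := by
      refine ⟨fun x hx g => ?_⟩
      rw [hcomm g x, mul_inv_cancel_right]
      exact hx
    let q : H →* (H ⧸ N) ⧸ P := (QuotientGroup.mk' P).comp (QuotientGroup.mk' N)
    have hqs : Function.Surjective q :=
      (QuotientGroup.mk'_surjective P).comp (QuotientGroup.mk'_surjective N)
    refine hR.perfect (T.comap q) inferInstance ?_
    rw [Subgroup.index_comap_of_surjective T hqs, hT]
  -- the commutator subgroup of `N` is central
  have hcm : ⁅N, N⁆ ≤ Subgroup.center H := by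
    rcases hsm ⁅N, N⁆ inferInstance with h | h
    · exact h
    · exfalso
      have hnt : Nontrivial N := by
        rw [Subgroup.nontrivial_iff_ne_bot]
        intro hb
        apply hNc
        rw [hb]
        exact bot_le
      have h1 : Group.IsSolvable N := inferInstance
      have h2 := Group.IsSolvable.commutator_lt_top_of_nontrivial N
      apply h2.ne
      apply Subgroup.map_injective N.subtype_injective
      rw [commutator_def, Subgroup.map_commutator, ← MonoidHom.range_eq_map, Subgroup.range_subtype]
      exact le_antisymm (Subgroup.commutator_le_left N N) h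
  have hnil : Group.IsNilpotent N := by
    have h1 : (Abelianization.of : N →* Abelianization N).ker ≤ Subgroup.center N := by
      rw [Abelianization.ker_of]
      intro x hx
      have h2 : (x : H) ∈ Subgroup.center H := by
        apply hcm
        have h3 : (commutator N).map N.subtype = ⁅N, N⁆ := by
          rw [commutator_def, Subgroup.map_commutator, ← MonoidHom.range_eq_map,
            Subgroup.range_subtype]
        rw [← h3]
        exact ⟨x, hx, rfl⟩
      rw [Subgroup.mem_center_iff]
      intro y
      exact Subtype.ext (Subgroup.mem_center_iff.1 h2 y)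
    exact isNilpotent_of_ker_le_center _ h1
  refine ⟨P.comap (QuotientGroup.mk' N), inferInstance, ⟨hR, hd, hNc, hsm, hcm,
    nilp_prime hR.radical N hnil, ?_, ?_, ?_, ?_⟩⟩
  · intro x hx
    rw [Subgroup.mem_comap]
    have : QuotientGroup.mk' N x = 1 := (QuotientGroup.eq_one_iff x).2 hx
    rw [this]
    exact one_mem _
  · rw [Subgroup.index_comap_of_surjective P (QuotientGroup.mk'_surjective N)]
    exact hPi
  · intro x hx
    obtain ⟨k, hk⟩ := hPp ⟨_, hx⟩
    refine ⟨k, ?_⟩
    rw [← QuotientGroup.eq_one_iff, QuotientGroup.mk_pow]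
    exact congrArg Subtype.val hk
  · rw [← Subgroup.map_le_iff_le_comap, map_commutator_surj _ (QuotientGroup.mk'_surjective N)]
    exact hPc

/-- minimal groups which are solvable -/
theorem solvable_step {H : Type} [Group H] [Finite H] (hs : Group.IsSolvable H)
    (hmin : Minimal p H) (n : ℕ) :
    ∃ g : ℕ, 2 ≤ g ∧ p ^ n * (p - 1) ∣ g - 1 ∧ (p : ℤ) ^ (n + 1) ∣ (numSurj g H : ℤ) := by
  obtain ⟨hd, hR, _, _, N, hN, hNc, hsm, hq, _⟩ := hmin
  obtain ⟨P1, hP1, D⟩ := base_of hs hR hd hNc hsm hq
  obtain ⟨g, hg, hdg⟩ := exists_genus (p := p) n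
  have : Fintype H := Fintype.ofFinite H
  obtain ⟨P⟩ : Nonempty (Sylow p H) := inferInstance
  exact ⟨g, hg, hdg, base_small P D hg hdg⟩

/-- **The reduction.** A group with the property on all smaller groups satisfies the conjecture,
unless it is almost simple modulo its center. -/
theorem awc_of_almost {X : ∀ (H : Type) [Group H], Prop} (hX : ClosedC p X)
    (h : ∀ (H : Type) [Group H] [Finite H], X H → AlmostSimple p H →
      (∀ (L : Type) [Group L] [Finite L], X L → Smaller L H →
        numRegularClasses p L = numWeights p L) → numRegularClasses p H = numWeights p H) :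
    ∀ (n : ℕ) (Γ : Type) [Group Γ] [Finite Γ], XP p (Xz X n) Γ →
      numRegularClasses p Γ = numWeights p Γ := by
  intro n
  induction n with
  | zero =>
    rintro Γ _ _ ⟨G, _, ⟨_, _, hG⟩, _⟩
    exact absurd (Nat.le_zero.1 hG) Subgroup.FiniteIndex.index_ne_zero
  | succ n ih =>
    have hXz := xz_closed hX.closed (n + 1)
    have key := reduction' p (Xz X (n + 1)) hXz (fun H _ _ hH hR hsmall => by
      have hsm : ∀ (L : Type) [Group L] [Finite L], X L → Smaller L H →
          numRegularClasses p L = numWeights p L := by
        intro L _ _ hL hLH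
        have hHn := hH.2.2
        rcases hLH with h1 | ⟨h1, h2⟩
        · refine ih L ⟨⊤, inferInstance, (xz_closed hX.closed n).iso L _ ⟨hL, inferInstance, ?_⟩
            ⟨Subgroup.topEquiv.symm⟩, pgroup_top p L⟩
          omega
        · refine hsmall L ⟨⊤, inferInstance, hXz.iso L _ ⟨hL, inferInstance, ?_⟩
            ⟨Subgroup.topEquiv.symm⟩, pgroup_top p L⟩ h2
          omega
      by_cases hna : AlmostSimple p H
      · exact h H hH.1 hna hsm
      · refine awc_step (Xz X (n + 1)) hXz H hH hR hsmall fun N => ?_
        have : Fintype H := Fintype.ofFinite H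
        by_cases hd : p ∣ Nat.card H
        · have hab : ∃ a b : H, a * b ≠ b * a := by
            by_contra hcon
            push Not at hcon
            let _ : CommGroup H := { (inferInstance : Group H) with mul_comm := hcon }
            have hN3 : Group.IsNilpotent (⊤ : Subgroup H) := inferInstance
            have h3 := nilp_prime hR.radical ⊤ hN3
            rw [Subgroup.card_top] at h3
            exact h3 hd
          rw [numSurj_one_zero hab]
          have hex : ∃ g : ℕ, 2 ≤ g ∧ p ^ N * (p - 1) ∣ g - 1 ∧
              (p : ℤ) ^ (N + 1) ∣ (numSurj g H : ℤ) := by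
            by_cases hZ : IsCyclic (Subgroup.center H) ∧ Subgroup.center H ≤ commutator H
            · by_cases hn : ∀ (M : Subgroup H) [M.Normal], ¬ M ≤ Subgroup.center H →
                  PA2 p (H ⧸ M)
              · have hmin : Minimal p H :=
                  ⟨hd, hR, hZ.1, hZ.2, exists_smallest hR.radical hd hab hn⟩
                by_cases hns : Group.IsSolvable H
                · exact solvable_step hns hmin N
                · exact minimal_step hX H hH.1 hR hsm hmin hns hna N
              · push Not at hn
                obtain ⟨M, hMn, hM1, hM2⟩ := hn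
                exact step_noncentral hX H hH.1 hsm M hM1 hM2 N
            · exact step_central hX H hH.1 hR.radical hsm hZ hd N
          obtain ⟨g, hg, hdg, h1⟩ := hex
          exact ⟨g, hg, hdg, by simpa using h1⟩
        · obtain ⟨g, hg, hdg⟩ := exists_genus (p := p) N
          exact ⟨g, hg, hdg, cont_prime hd hg hdg⟩)
    intro Γ _ _ hΓ
    exact key (Nat.card Γ) Γ le_rfl hΓ

theorem navarro_of_almost (p : ℕ) [Fact p.Prime] (F : Type) [Field F] [IsAlgClosed F]
    [CharP F p] (X : ∀ (H : Type) [Group H], Prop) (hX : ClosedC p X)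
    (h : ∀ (H : Type) [Group H] [Finite H], X H → AlmostSimple p H →
      (∀ (Γ : Type) [Group Γ] [Finite Γ] (G : Subgroup Γ) [G.Normal], X G → IsPGroup p (Γ ⧸ G) →
        Smaller G H → NavarroSum p F G) → NavarroSum p F (⊤ : Subgroup H))
    (Γ : Type) [Group Γ] [Finite Γ] (N G : Subgroup Γ) [N.Normal] [G.Normal] (hNG : N ≤ G)
    (hN : X N) (hp : IsPGroup p (Γ ⧸ N)) : NavarroSum p F G := by
  refine (free_strong p F X hX.closed).1 (fun H _ _ hH _ => ?_) Γ N G hNG hN hp
  rw [navarroSum_top]
  refine awc_of_almost hX (fun K _ _ hK hmin hsmall => ?_)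
    (Subgroup.center H).index H
    ⟨⊤, inferInstance, (xz_closed hX.closed _).iso H _ ⟨hH, inferInstance, le_rfl⟩
      ⟨Subgroup.topEquiv.symm⟩, pgroup_top p H⟩
  rw [← navarroSum_top p F K]
  refine h K hK hmin fun Γ _ _ G _ hG hpG hGK => ?_
  have : Finite G := inferInstance
  exact (free_form p F (fun L _ => Low X K L) (low_closed hX.closed K)).1
    (fun L _ _ hL => (navarroSum_top p F L).2 (hsmall L hL.1 (smaller_of_low hL))) Γ G
    (low_of_smaller hG hGK) hpG

/-- the conjecture for solvable groups -/
theorem awc_solvable (H : Type) [Group H] [Finite H] (hs : Group.IsSolvable H) :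
    numRegularClasses p H = numWeights p H := by
  have hX : ClosedC p (fun H _ => Group.IsSolvable H) :=
    { iso := by
        rintro H L _ _ h ⟨e⟩
        exact Group.isSolvable_of_surjective (f := e.toMonoidHom) e.surjective
      sub := fun H _ h K => inferInstance
      quot := fun H _ h M _ => inferInstance
      central := by
        intro H _ _ Z _ hZ _ h
        have h1 : Group.IsSolvable Z := by
          let _ : CommGroup Z := { (inferInstance : Group Z) with
            mul_comm := fun a b => Subtype.ext (Subgroup.mem_center_iff.1 (hZ b.2) a) }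
          infer_instance
        exact Group.isSolvable_of_ker_le_range Z.subtype (QuotientGroup.mk' Z) (by
          rw [QuotientGroup.ker_mk', Subgroup.range_subtype]) }
  refine awc_of_almost hX (fun K _ _ hK hmin _ => ?_) (Subgroup.center H).index H
    ⟨⊤, inferInstance, ⟨(inferInstance : Group.IsSolvable (⊤ : Subgroup H)), inferInstance, ?_⟩,
      pgroup_top p H⟩
  · exfalso
    obtain ⟨N, hN, ⟨hNp, hNs⟩, hcN, hcc, _⟩ := hmin.normal
    have h1 : Group.IsSolvable N := inferInstance
    have hnt : Nontrivial N := by
      rw [← not_subsingleton_iff_nontrivial]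
      intro hss
      have h2 : Subsingleton (N ⧸ Subgroup.center N) := inferInstance
      have h3 := hNs.toNontrivial
      exact not_subsingleton _ h2
    exact (Group.IsSolvable.commutator_lt_top_of_nontrivial N).ne hNp
  · exact center_index_sub _

end Pool.Agent.Helper15.SV
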