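import Pool.Agent.Helper15.SV.Cnt
import Pool.Agent.Helper15.AWC.Rad

/-!
# The structure of solvable minimal groups
-/

open scoped Classical BigOperators
open Pool.Agent.Helper15.AW

set_option linter.unusedSectionVars false
set_option linter.unusedVariables false

noncomputable section

namespace Pool.Agent.Helper15.SV

open Pool.Agent.Y63.NV (Reduced)

section

variable {H : Type} [Group H] [Finite H]

/-- the setting -/
structure Base (p : ℕ) (N P1 : Subgroup H) : Prop where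
  red : Reduced p H
  dvd : p ∣ Nat.card H
  nonc : ¬ N ≤ Subgroup.center H
  small : ∀ L : Subgroup H, L.Normal → L ≤ Subgroup.center H ∨ N ≤ L
  comm : ⁅N, N⁆ ≤ Subgroup.center H
  prime : ¬ p ∣ Nat.card N
  le : N ≤ P1
  idx : ¬ p ∣ P1.index
  pg : ∀ x ∈ P1, ∃ k : ℕ, x ^ p ^ k ∈ N
  der : commutator H ≤ P1

variable {p : ℕ} [hp : Fact p.Prime] {N P1 : Subgroup H} [hN : N.Normal] [hP1 : P1.Normal]

lemma pow_coprime_one {G : Type} [Group G] {x : G} {a b : ℕ} (h1 : x ^ a = 1) (h2 : x ^ b = 1)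
    (hab : Nat.Coprime a b) : x = 1 := by
  have h3 := pow_gcd_eq_one.2 ⟨h1, h2⟩
  rwa [hab.gcd_eq_one, pow_one] at h3

lemma p_coprime {n : ℕ} (k : ℕ) (h : ¬ p ∣ n) : Nat.Coprime (p ^ k) n :=
  Nat.Coprime.pow_left k ((Nat.Prime.coprime_iff_not_dvd hp.out).2 h)

/-- `p`-elements of a group of order prime to `p` -/
lemma p_elt_one {x : H} (D : Subgroup H) (hD : ¬ p ∣ Nat.card D) (hx : x ∈ D) {k : ℕ}
    (h : x ^ p ^ k = 1) : x = 1 := by
  refine pow_coprime_one h (b := Nat.card D) ?_ (p_coprime k hD)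
  have h1 : (⟨x, hx⟩ : D) ^ Nat.card D = 1 := pow_card_eq_one'
  exact congrArg Subtype.val h1

lemma comm_mem (D : Base p N P1) {x y : H} (hx : x ∈ N) (hy : y ∈ N) :
    x * y * x⁻¹ * y⁻¹ ∈ Subgroup.center H := by
  apply D.comm
  have := Subgroup.commutator_mem_commutator hx hy
  rwa [commutatorElement_def] at this

/-- a subgroup normalized by `A` and `N`-/
lemma normal_of_sup {A L : Subgroup H} (hA : A ⊔ N = ⊤)
    (h1 : ∀ a ∈ A, ∀ x ∈ L, a * x * a⁻¹ ∈ L) (h2 : ∀ a ∈ N, ∀ x ∈ L, a * x * a⁻¹ ∈ L) :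
    L.Normal := by
  refine ⟨fun x hx g => ?_⟩
  have hg : g ∈ A ⊔ N := by rw [hA]; trivial
  rw [Subgroup.mem_sup_of_normal_right] at hg
  obtain ⟨a, ha, n, hn, rfl⟩ := hg
  have h3 : a * n * x * (a * n)⁻¹ = a * (n * x * n⁻¹) * a⁻¹ := by group
  rw [h3]
  exact h1 a ha _ (h2 n hn x hx)

/-- the fixed points of a normal `p`-subgroup of a supplement -/
theorem fix_center (D : Base p N P1) {K R : Subgroup H} (hK : K ⊔ N = ⊤) (hR : IsPGroup p R)
    (hR1 : R ≠ ⊥) (hKR : ∀ k ∈ K, ∀ r ∈ R, k * r * k⁻¹ ∈ R) :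
    ∀ m ∈ N, (∀ s ∈ R, s * m = m * s) → m ∈ Subgroup.center H := by
  -- the elements of `N` commuting with `R`
  let C : Subgroup H :=
    { carrier := {x | x ∈ N ∧ ∀ s ∈ R, s * x = x * s}
      one_mem' := ⟨N.one_mem, fun s _ => by rw [mul_one, one_mul]⟩
      mul_mem' := by
        rintro a b ⟨ha, ha'⟩ ⟨hb, hb'⟩
        refine ⟨N.mul_mem ha hb, fun s hs => ?_⟩
        rw [← mul_assoc, ha' s hs, mul_assoc, hb' s hs, mul_assoc]
      inv_mem' := by
        rintro a ⟨ha, ha'⟩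
        refine ⟨N.inv_mem ha, fun s hs => ?_⟩
        rw [eq_inv_mul_iff_mul_eq, ← mul_assoc, ← ha' s hs, mul_inv_cancel_right] }
  have hLn : (C ⊔ Subgroup.center H).Normal := by
    refine normal_of_sup hK ?_ ?_
    · intro k hk x hx
      rw [Subgroup.mem_sup_of_normal_right] at hx
      obtain ⟨c, ⟨hc, hc'⟩, z, hz, rfl⟩ := hx
      have h1 : k * (c * z) * k⁻¹ = (k * c * k⁻¹) * z := by
        have h2 : z * k⁻¹ = k⁻¹ * z := (Subgroup.mem_center_iff.1 hz k⁻¹).symm
        calc k * (c * z) * k⁻¹ = k * c * (z * k⁻¹) := by group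
          _ = _ := by rw [h2]; group
      rw [h1]
      refine Subgroup.mul_mem_sup ⟨hN.conj_mem c hc k, fun s hs => ?_⟩ hz
      have h2 : k⁻¹ * s * k ∈ R := by
        have := hKR k⁻¹ (K.inv_mem hk) s hs
        rwa [inv_inv] at this
      have h3 := hc' _ h2
      calc s * (k * c * k⁻¹) = k * ((k⁻¹ * s * k) * c) * k⁻¹ := by group
        _ = k * c * k⁻¹ * s := by rw [h3]; group
    · intro a ha x hx
      rw [Subgroup.mem_sup_of_normal_right] at hx
      obtain ⟨c, ⟨hc, hc'⟩, z, hz, rfl⟩ := hx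
      have h1 := comm_mem D ha hc
      have h2 : a * (c * z) * a⁻¹ = c * (z * (a * c * a⁻¹ * c⁻¹)) := by
        have h3 : z * a⁻¹ = a⁻¹ * z := (Subgroup.mem_center_iff.1 hz a⁻¹).symm
        have h4 := Subgroup.mem_center_iff.1 hz (a * c * a⁻¹ * c⁻¹)
        calc a * (c * z) * a⁻¹ = (a * c * a⁻¹ * c⁻¹) * c * (a * a⁻¹) * z := by
              rw [← mul_assoc, mul_assoc (a * c), h3]
              group
          _ = c * (a * c * a⁻¹ * c⁻¹) * z := by
              rw [mul_inv_cancel, mul_one, Subgroup.mem_center_iff.1 h1 c]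
          _ = _ := by rw [mul_assoc, h4]
      rw [h2]
      exact Subgroup.mul_mem_sup ⟨hc, hc'⟩ (mul_mem hz h1)
  rcases D.small _ hLn with h1 | h1
  · intro m hm hm'
    exact h1 (Subgroup.mem_sup_left ⟨hm, hm'⟩)
  · exfalso
    apply hR1
    refine D.red.radical R (normal_of_sup hK hKR ?_) hR
    intro a ha r hr
    have h2 := h1 ha
    rw [Subgroup.mem_sup_of_normal_right] at h2
    obtain ⟨c, ⟨hc, hc'⟩, z, hz, rfl⟩ := h2
    have h3 : c * z * r * (c * z)⁻¹ = r := by
      have h4 := Subgroup.mem_center_iff.1 hz r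
      have h5 := hc' r hr
      calc c * z * r * (c * z)⁻¹ = c * (z * r) * z⁻¹ * c⁻¹ := by group
        _ = (c * r) * (z * z⁻¹) * c⁻¹ := by rw [← h4]; group
        _ = r := by rw [← h5]; group
    rw [h3]
    exact hr

variable (P : Sylow p H)

lemma sylow_le (D : Base p N P1) : (P : Subgroup H) ≤ P1 := by
  intro x hx
  obtain ⟨k, hk⟩ := P.isPGroup' ⟨x, hx⟩
  have hk' : x ^ p ^ k = 1 := congrArg Subtype.val hk
  rw [← QuotientGroup.eq_one_iff]
  refine pow_coprime_one (a := p ^ k) (b := Nat.card (H ⧸ P1)) ?_ pow_card_eq_one'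
    (p_coprime k D.idx)
  rw [← QuotientGroup.mk_pow, hk', QuotientGroup.mk_one]

lemma P1_le (D : Base p N P1) : P1 ≤ N ⊔ (P : Subgroup H) := by
  set A : Subgroup H := N ⊔ (P : Subgroup H) with hA
  have hAP : A ≤ P1 := sup_le D.le (sylow_le P D)
  have h1 : ¬ p ∣ A.relIndex P1 := by
    intro h
    refine P.not_dvd_index (h.trans ((Subgroup.relIndex_dvd_index_of_le hAP).trans
      (Subgroup.index_dvd_of_le le_sup_right)))
  have h2 : IsPGroup p (P1 ⧸ N.subgroupOf P1) := by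
    intro x
    obtain ⟨x, rfl⟩ := QuotientGroup.mk_surjective x
    obtain ⟨k, hk⟩ := D.pg x x.2
    refine ⟨k, ?_⟩
    rw [← QuotientGroup.mk_pow, QuotientGroup.eq_one_iff]
    exact hk
  obtain ⟨k, hk⟩ := IsPGroup.iff_card.1 h2
  have h3 : A.relIndex P1 ∣ p ^ k := by
    rw [← hk]
    exact Subgroup.relIndex_dvd_of_le_left P1 (le_sup_left : N ≤ A)
  have h4 : A.relIndex P1 = 1 := by
    exact (p_coprime k h1).symm.eq_one_of_dvd h3
  exact Subgroup.relIndex_eq_one.1 h4

lemma split_P1 (D : Base p N P1) {x : H} (hx : x ∈ P1) :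
    ∃ n ∈ N, ∃ s ∈ (P : Subgroup H), n * s = x := by
  have h1 := P1_le P D hx
  rw [Subgroup.mem_sup_of_normal_left] at h1
  exact h1

lemma K_sup (D : Base p N P1) : Subgroup.normalizer ((P : Subgroup H) : Set H) ⊔ N = ⊤ := by
  have h1 := P.normalizer_sup_eq_top' (sylow_le P D)
  rw [eq_top_iff]
  have h2 : (⊤ : Subgroup H) ≤ Subgroup.normalizer ((P : Subgroup H) : Set H) ⊔ P1 := by
    rw [← h1]
    rfl
  refine h2.trans (sup_le le_sup_left ((P1_le P D).trans (sup_le le_sup_right ?_)))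
  exact Subgroup.le_normalizer.trans le_sup_left

lemma P_ne (D : Base p N P1) : (P : Subgroup H) ≠ ⊥ := by
  intro h
  have h1 := P.not_dvd_index
  change ¬ p ∣ (P : Subgroup H).index at h1
  rw [h, Subgroup.index_bot] at h1
  exact h1 D.dvd

lemma K_ne (D : Base p N P1) : Subgroup.normalizer ((P : Subgroup H) : Set H) ≠ ⊤ := by
  intro h
  have h1 : (P : Subgroup H).Normal := Subgroup.normalizer_eq_top_iff.1 h
  exact P_ne P D (D.red.radical _ h1 P.isPGroup')

lemma mem_K {x : H} (hx : x ∈ Subgroup.normalizer ((P : Subgroup H) : Set H)) {s : H}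
    (hs : s ∈ (P : Subgroup H)) : x * s * x⁻¹ ∈ (P : Subgroup H) :=
  (Subgroup.mem_normalizer_iff.1 hx s).1 hs

lemma N_cap (D : Base p N P1) {x : H} (hx : x ∈ N) (hx' : x ∈ (P : Subgroup H)) : x = 1 := by
  obtain ⟨k, hk⟩ := P.isPGroup' ⟨x, hx'⟩
  exact p_elt_one N D.prime hx (k := k) (congrArg Subtype.val hk)

lemma K_cap (D : Base p N P1) {x : H} (hx : x ∈ Subgroup.normalizer ((P : Subgroup H) : Set H))
    (hx' : x ∈ N) : x ∈ Subgroup.center H := by
  refine fix_center D (K_sup P D) P.isPGroup' (P_ne P D) (fun k hk r hr => mem_K P hk hr) x hx'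
    fun s hs => ?_
  have h1 : x * s * x⁻¹ * s⁻¹ = 1 := by
    refine N_cap P D ?_ ((P : Subgroup H).mul_mem (mem_K P hx hs) ((P : Subgroup H).inv_mem hs))
    have h2 : x * s * x⁻¹ * s⁻¹ = x * (s * x⁻¹ * s⁻¹) := by group
    rw [h2]
    exact N.mul_mem hx' (hN.conj_mem _ (N.inv_mem hx') s)
  rw [mul_inv_eq_one, mul_inv_eq_iff_eq_mul] at h1
  exact h1.symm

include P in
/-- the commutators with `P` -/
theorem N_gen (D : Base p N P1) : N ≤ ⁅N, P1⁆ := by
  rcases D.small ⁅N, P1⁆ inferInstance with h | h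
  · exfalso
    apply D.nonc
    intro n hn
    refine fix_center D (K_sup P D) P.isPGroup' (P_ne P D) (fun k hk r hr => mem_K P hk hr) n hn
      fun s hs => ?_
    have hz : n * s * n⁻¹ * s⁻¹ ∈ Subgroup.center H := by
      apply h
      have := Subgroup.commutator_mem_commutator hn (sylow_le P D hs)
      rwa [commutatorElement_def] at this
    have hzN : n * s * n⁻¹ * s⁻¹ ∈ N := by
      have h2 : n * s * n⁻¹ * s⁻¹ = n * (s * n⁻¹ * s⁻¹) := by group
      rw [h2]
      exact N.mul_mem hn (hN.conj_mem _ (N.inv_mem hn) s)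
    obtain ⟨k, hk⟩ := P.isPGroup' ⟨s, hs⟩
    have hk' : s ^ p ^ k = 1 := congrArg Subtype.val hk
    have h1 : (n * s * n⁻¹ * s⁻¹) ^ p ^ k = 1 := by
      have h3 : n * s * n⁻¹ = (n * s * n⁻¹ * s⁻¹) * s := by group
      have h4 : (n * s * n⁻¹) ^ p ^ k = 1 := by
        rw [← MulAut.conj_apply, ← map_pow, hk', map_one]
      rw [h3, (show Commute (n * s * n⁻¹ * s⁻¹) s from
        (Subgroup.mem_center_iff.1 hz s).symm).mul_pow, hk', mul_one] at h4
      exact h4
    have h5 := p_elt_one N D.prime hzN h1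
    rw [mul_inv_eq_one, mul_inv_eq_iff_eq_mul] at h5
    exact h5.symm
  · exact h

include P in
/-- central elements of `N` are in the commutator subgroup -/
theorem N_cent (D : Base p N P1) {m : H} (hm : m ∈ N) (hmc : m ∈ Subgroup.center H) :
    m ∈ ⁅N, N⁆ := by
  have : Fintype (P : Subgroup H) := Fintype.ofFinite _
  let nu : N →* Abelianization N :=
    { toFun := fun n => ∏ s : (P : Subgroup H), Abelianization.of (MulAut.conjNormal (s : H) n)
      map_one' := by simp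
      map_mul' := fun a b => by
        simp only [map_mul]
        exact Finset.prod_mul_distrib }
  have hnu : ∀ n : N, nu n = ∏ s : (P : Subgroup H),
    Abelianization.of (MulAut.conjNormal (s : H) n) := fun _ => rfl
  have hcj : ∀ (n : N) (t : (P : Subgroup H)), nu (MulAut.conjNormal (t : H) n) = nu n := by
    intro n t
    rw [hnu, hnu]
    refine Fintype.prod_equiv (Equiv.mulRight t) _ _ fun s => ?_
    rw [Equiv.coe_mulRight, Subgroup.coe_mul, map_mul, MulAut.mul_apply]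
  have hcm : ∀ (n m : N), nu (MulAut.conjNormal (m : H) n) = nu n := by
    intro n m
    have h1 : MulAut.conjNormal (m : H) n = m * n * m⁻¹ := by
      apply Subtype.ext
      rw [MulAut.conjNormal_apply]
      rfl
    rw [h1, map_mul, map_mul, map_inv, mul_comm (nu m), mul_inv_cancel_right]
  have hker : ⁅N, P1⁆ ≤ nu.ker.map N.subtype := by
    rw [Subgroup.commutator_le]
    intro a ha x hx
    obtain ⟨n, hn, s, hs, rfl⟩ := split_P1 P D hx
    refine ⟨(⟨a, ha⟩ : N) * MulAut.conjNormal (n * s) (⟨a, ha⟩ : N)⁻¹, ?_, ?_⟩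
    · change nu _ = 1
      rw [map_mul, map_mul, MulAut.mul_apply]
      have e1 := hcm (MulAut.conjNormal s (⟨a, ha⟩ : N)⁻¹) ⟨n, hn⟩
      have e2 := hcj (⟨a, ha⟩ : N)⁻¹ ⟨s, hs⟩
      rw [e1, e2, map_inv, mul_inv_cancel]
    · change a * ((MulAut.conjNormal (n * s) (⟨a, ha⟩ : N)⁻¹ : N) : H) = _
      rw [MulAut.conjNormal_apply, commutatorElement_def, Subgroup.coe_inv]
      group
  obtain ⟨w, hw, hwm⟩ := hker (N_gen P D hm)
  have hw' : w = ⟨m, hm⟩ := Subtype.ext hwm
  have h1 : nu ⟨m, hm⟩ = 1 := by rw [← hw']; exact hw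
  rw [hnu] at h1
  have h2 : ∀ s : (P : Subgroup H), MulAut.conjNormal (s : H) (⟨m, hm⟩ : N) = ⟨m, hm⟩ := by
    intro s
    apply Subtype.ext
    rw [MulAut.conjNormal_apply]
    change (s : H) * m * (s : H)⁻¹ = m
    rw [Subgroup.mem_center_iff.1 hmc (s : H), mul_inv_cancel_right]
  rw [Finset.prod_congr rfl fun s _ => by rw [h2 s], Finset.prod_const, Finset.card_univ,
    ← Nat.card_eq_fintype_card] at h1
  obtain ⟨k, hk⟩ := IsPGroup.iff_card.1 P.isPGroup'
  have hk' : Nat.card (P : Subgroup H) = p ^ k := hk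
  rw [hk'] at h1
  have h3 : Abelianization.of (⟨m, hm⟩ : N) = 1 := by
    refine pow_coprime_one h1 (b := Nat.card N) ?_ (p_coprime k D.prime)
    rw [← map_pow, pow_card_eq_one', map_one]
  have h4 : (⟨m, hm⟩ : N) ∈ commutator N := (QuotientGroup.eq_one_iff _).1 h3
  have h5 : (commutator N).map N.subtype = ⁅N, N⁆ := by
    rw [commutator_def, Subgroup.map_commutator, ← MonoidHom.range_eq_map, Subgroup.range_subtype]
  rw [← h5]
  exact ⟨_, h4, rfl⟩

end

end Pool.Agent.Helper15.SV
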