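import Pool.Agent.Helper15.SV.Sol
import Mathlib.GroupTheory.SchurZassenhaus

/-!
# The supplements and the complement
-/

open scoped Classical BigOperators Pointwise
open Pool.Agent.Helper15.AW

set_option linter.unusedSectionVars false
set_option linter.unusedVariables false

noncomputable section

namespace Pool.Agent.Helper15.SV

open Pool.Agent.Y63.NV (Reduced)

section

variable {H : Type} [Group H] [Finite H] {p : ℕ} [hp : Fact p.Prime] {N P1 : Subgroup H}
  [hN : N.Normal] [hP1 : P1.Normal] (P : Sylow p H)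

/-- proper supplements intersect `N` in the center -/
theorem sup_cap (D : Base p N P1) {L : Subgroup H} (hL : L ⊔ N = ⊤) (hLt : L ≠ ⊤) {x : H}
    (hx : x ∈ L) (hxN : x ∈ N) : x ∈ Subgroup.center H := by
  have hLn : ((L ⊓ N) ⊔ Subgroup.center H).Normal := by
    refine normal_of_sup hL ?_ ?_
    · intro k hk x hx
      rw [Subgroup.mem_sup_of_normal_right] at hx
      obtain ⟨c, ⟨hc, hc'⟩, z, hz, rfl⟩ := hx
      have h1 : k * (c * z) * k⁻¹ = (k * c * k⁻¹) * z := by
        have h2 : z * k⁻¹ = k⁻¹ * z := (Subgroup.mem_center_iff.1 hz k⁻¹).symm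
        calc k * (c * z) * k⁻¹ = k * c * (z * k⁻¹) := by group
          _ = _ := by rw [h2]; group
      rw [h1]
      exact Subgroup.mul_mem_sup ⟨L.mul_mem (L.mul_mem hk hc) (L.inv_mem hk),
        hN.conj_mem c hc' k⟩ hz
    · intro a ha x hx
      rw [Subgroup.mem_sup_of_normal_right] at hx
      obtain ⟨c, ⟨hc, hc'⟩, z, hz, rfl⟩ := hx
      have h1 := comm_mem D ha hc'
      have h2 : a * (c * z) * a⁻¹ = c * (z * (a * c * a⁻¹ * c⁻¹)) := by
        have h3 : z * a⁻¹ = a⁻¹ * z := (Subgroup.mem_center_iff.1 hz a⁻¹).symm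
        have h4 := Subgroup.mem_center_iff.1 hz (a * c * a⁻¹ * c⁻¹)
        calc a * (c * z) * a⁻¹ = (a * c * a⁻¹ * c⁻¹) * c * (a * a⁻¹) * z := by
              rw [← mul_assoc, mul_assoc (a * c), h3]
              group
          _ = c * (a * c * a⁻¹ * c⁻¹) * z := by
              rw [mul_inv_cancel, mul_one, Subgroup.mem_center_iff.1 h1 c]
          _ = _ := by rw [mul_assoc, h4]
      rw [h2]
      exact Subgroup.mul_mem_sup ⟨hc, hc'⟩ (mul_mem hz h1)
  rcases D.small _ hLn with h1 | h1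
  · exact h1 (Subgroup.mem_sup_left ⟨hx, hxN⟩)
  · exfalso
    have hCn : (L ⊓ N).Normal := by
      refine normal_of_sup hL ?_ ?_
      · intro k hk x hx
        exact ⟨L.mul_mem (L.mul_mem hk hx.1) (L.inv_mem hk), hN.conj_mem x hx.2 k⟩
      · intro a ha x hx
        have h2 := h1 ha
        rw [Subgroup.mem_sup_of_normal_right] at h2
        obtain ⟨c, hc, z, hz, rfl⟩ := h2
        have h3 : c * z * x * (c * z)⁻¹ = c * x * c⁻¹ := by
          have h4 := Subgroup.mem_center_iff.1 hz x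
          calc c * z * x * (c * z)⁻¹ = c * (z * x) * z⁻¹ * c⁻¹ := by group
            _ = c * x * (z * z⁻¹) * c⁻¹ := by rw [← h4]; group
            _ = _ := by group
        rw [h3]
        exact (L ⊓ N).mul_mem ((L ⊓ N).mul_mem hc hx) ((L ⊓ N).inv_mem hc)
    rcases D.small _ hCn with h2 | h2
    · exact D.nonc (h1.trans (sup_le h2 le_rfl))
    · apply hLt
      rw [← hL]
      exact (sup_eq_left.2 (h2.trans inf_le_left)).symm

/-- the index of a supplement -/
lemma index_dvd {L : Subgroup H} (hL : L ⊔ N = ⊤) : L.index ∣ Nat.card N := by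
  have h1 : N.relIndex L = N.index := by
    have := Subgroup.relIndex_sup_right L N
    rw [hL, Subgroup.relIndex_top_right] at this
    exact this.symm
  have h2 : L.index * Nat.card L = Nat.card H := Subgroup.index_mul_card L
  have h3 : N.index * Nat.card N = Nat.card H := Subgroup.index_mul_card N
  have h4 : N.relIndex L * Nat.card (N.subgroupOf L) = Nat.card L :=
    Subgroup.index_mul_card (N.subgroupOf L)
  have h5 : L.index * Nat.card (N.subgroupOf L) = Nat.card N := by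
    have h6 : 0 < N.relIndex L := Nat.pos_of_ne_zero (N.subgroupOf L).index_ne_zero_of_finite
    apply Nat.eq_of_mul_eq_mul_left h6
    rw [← mul_assoc, mul_comm _ L.index, mul_assoc, h4, h2, h1, h3]
  exact ⟨_, h5.symm⟩

/-- a proper supplement normalizes a Sylow subgroup -/
theorem sup_norm (D : Base p N P1) {L : Subgroup H} (hL : L ⊔ N = ⊤) (hLt : L ≠ ⊤) :
    ∃ n ∈ N, ∀ x ∈ L, n⁻¹ * x * n ∈ Subgroup.normalizer ((P : Subgroup H) : Set H) := by
  obtain ⟨S⟩ : Nonempty (Sylow p L) := inferInstance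
  set T : Subgroup H := (S : Subgroup L).map L.subtype with hT
  have hTL : T ≤ L := Subgroup.map_subtype_le _
  have hTp : IsPGroup p T := S.isPGroup'.map _
  have hTi : ¬ p ∣ T.index := by
    rw [← Subgroup.relIndex_mul_index hTL]
    intro h
    rcases (Nat.Prime.dvd_mul hp.out).1 h with h1 | h1
    · have h2 : T.relIndex L = (S : Subgroup L).index := by
        change (T.subgroupOf L).index = _
        rw [hT, Subgroup.subgroupOf, Subgroup.comap_map_eq_self_of_injective L.subtype_injective]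
      rw [h2] at h1
      exact S.not_dvd_index h1
    · exact D.prime (h1.trans (index_dvd hL))
  obtain ⟨Q, hQ⟩ := hTp.exists_le_sylow
  have hQT : (Q : Subgroup H) ≤ T := by
    have h1 : ¬ p ∣ T.relIndex Q := fun h => hTi (h.trans (Subgroup.relIndex_dvd_index_of_le hQ))
    obtain ⟨k, hk⟩ := IsPGroup.iff_card.1 Q.isPGroup'
    have h2 : T.relIndex (Q : Subgroup H) ∣ p ^ k := by
      have h3 : T.relIndex (Q : Subgroup H) ∣ Nat.card (Q : Subgroup H) :=
        (T.subgroupOf (Q : Subgroup H)).index_dvd_card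
      have h4 : Nat.card (Q : Subgroup H) = p ^ k := hk
      rwa [h4] at h3
    exact Subgroup.relIndex_eq_one.1 ((p_coprime k h1).symm.eq_one_of_dvd h2)
  have hQL : (Q : Subgroup H) ≤ L := hQT.trans hTL
  -- `L` normalizes `Q`
  have hnorm : ∀ l ∈ L, ∀ s ∈ (Q : Subgroup H), l * s * l⁻¹ ∈ (Q : Subgroup H) := by
    intro l hl s hs
    have hy1 : l * s * l⁻¹ ∈ P1 := hP1.conj_mem s (sylow_le Q D hs) l
    obtain ⟨n, hn, t, ht, hnt⟩ := split_P1 Q D hy1
    have hnL : n ∈ L := by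
      have h1 : n = (l * s * l⁻¹) * t⁻¹ := by rw [← hnt, mul_inv_cancel_right]
      rw [h1]
      exact L.mul_mem (L.mul_mem (L.mul_mem hl (hQL hs)) (L.inv_mem hl)) (L.inv_mem (hQL ht))
    have hnc := sup_cap D hL hLt hnL hn
    obtain ⟨i, hi⟩ := Q.isPGroup' ⟨s, hs⟩
    obtain ⟨j, hj⟩ := Q.isPGroup' ⟨t, ht⟩
    have hi' : s ^ p ^ i = 1 := congrArg Subtype.val hi
    have hj' : t ^ p ^ j = 1 := congrArg Subtype.val hj
    have h1 : (l * s * l⁻¹) ^ p ^ (i + j) = 1 := by
      rw [← MulAut.conj_apply, ← map_pow, pow_add, pow_mul, hi', one_pow, map_one]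
    have h2 : t ^ p ^ (i + j) = 1 := by
      rw [pow_add, mul_comm, pow_mul, hj', one_pow]
    rw [← hnt, (show Commute n t from (Subgroup.mem_center_iff.1 hnc t).symm).mul_pow, h2,
      mul_one] at h1
    have h3 := p_elt_one N D.prime hn h1
    rw [← hnt, h3, one_mul]
    exact ht
  -- conjugacy
  obtain ⟨x, hx⟩ := MulAction.exists_smul_eq H P Q
  have hxs : x ∈ N ⊔ Subgroup.normalizer ((P : Subgroup H) : Set H) := by
    rw [sup_comm, K_sup P D]
    trivial
  rw [Subgroup.mem_sup_of_normal_left] at hxs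
  obtain ⟨n, hn, k, hk, rfl⟩ := hxs
  have hQP : ∀ y : H, y ∈ (Q : Subgroup H) ↔ n⁻¹ * y * n ∈ (P : Subgroup H) := by
    intro y
    rw [← hx, Sylow.coe_subgroup_smul, Subgroup.mem_pointwise_smul_iff_inv_smul_mem]
    have h1 : (MulAut.conj (n * k))⁻¹ • y = k⁻¹ * (n⁻¹ * y * n) * k := by
      rw [← map_inv]
      change (n * k)⁻¹ * y * (n * k)⁻¹⁻¹ = _
      group
    rw [h1]
    have h2 := Subgroup.mem_normalizer_iff''.1 hk (n⁻¹ * y * n)
    exact h2.symm
  refine ⟨n, hn, fun l hl => ?_⟩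
  rw [Subgroup.mem_normalizer_iff]
  have hone : ∀ l ∈ L, ∀ s ∈ (P : Subgroup H),
      (n⁻¹ * l * n) * s * (n⁻¹ * l * n)⁻¹ ∈ (P : Subgroup H) := by
    intro l hl s hs
    have h1 : n * s * n⁻¹ ∈ (Q : Subgroup H) := by
      rw [hQP]
      have : n⁻¹ * (n * s * n⁻¹) * n = s := by group
      rwa [this]
    have h2 := (hQP _).1 (hnorm l hl _ h1)
    have h3 : n⁻¹ * (l * (n * s * n⁻¹) * l⁻¹) * n = (n⁻¹ * l * n) * s * (n⁻¹ * l * n)⁻¹ := by group
    rwa [h3] at h2
  intro s
  constructor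
  · exact hone l hl s
  · intro h
    have h1 := hone l⁻¹ (L.inv_mem hl) _ h
    have h2 : n⁻¹ * l⁻¹ * n * (n⁻¹ * l * n * s * (n⁻¹ * l * n)⁻¹) * (n⁻¹ * l⁻¹ * n)⁻¹ = s := by
      group
    rwa [h2] at h1

/-- the complement -/
theorem exists_compl (D : Base p N P1) : ∃ B : Subgroup H,
    B ≤ Subgroup.normalizer ((P : Subgroup H) : Set H) ∧
    (∀ x ∈ Subgroup.normalizer ((P : Subgroup H) : Set H),
      ∃ s ∈ (P : Subgroup H), ∃ b ∈ B, s * b = x) ∧
    (∀ x ∈ B, ∀ y ∈ B, x * y * x⁻¹ * y⁻¹ ∈ Subgroup.center H) ∧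
    Nat.Coprime (B.relIndex (Subgroup.normalizer ((P : Subgroup H) : Set H))) (Nat.card N) := by
  set K : Subgroup H := Subgroup.normalizer ((P : Subgroup H) : Set H) with hK
  have hPK : (P : Subgroup H) ≤ K := Subgroup.le_normalizer
  have hn : ((P : Subgroup H).subgroupOf K).Normal := Subgroup.normal_in_normalizer
  obtain ⟨k, hk⟩ := IsPGroup.iff_card.1 P.isPGroup'
  have hk' : Nat.card (P : Subgroup H) = p ^ k := hk
  have hcard : Nat.card ((P : Subgroup H).subgroupOf K) = p ^ k := by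
    rw [← hk']
    exact Nat.card_congr (Subgroup.subgroupOfEquivOfLe hPK).toEquiv
  have hidx : ¬ p ∣ ((P : Subgroup H).subgroupOf K).index := by
    intro h
    exact P.not_dvd_index (h.trans (Subgroup.relIndex_dvd_index_of_le hPK))
  obtain ⟨B0, hB0⟩ := Subgroup.exists_right_complement'_of_coprime
    (N := (P : Subgroup H).subgroupOf K) (by
      rw [hcard]
      exact p_coprime k hidx)
  have hBK : B0.map K.subtype ≤ K := Subgroup.map_subtype_le _
  have hcap : ∀ x ∈ B0.map K.subtype, x ∈ (P : Subgroup H) → x = 1 := by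
    rintro _ ⟨b, hb, rfl⟩ hP
    have h1 : b ∈ (P : Subgroup H).subgroupOf K ⊓ B0 := ⟨hP, hb⟩
    rw [hB0.disjoint.eq_bot, Subgroup.mem_bot] at h1
    rw [h1]
    rfl
  refine ⟨B0.map K.subtype, hBK, ?_, ?_, ?_⟩
  · intro x hx
    have h1 : (⟨x, hx⟩ : K) ∈ (P : Subgroup H).subgroupOf K ⊔ B0 := by
      rw [hB0.sup_eq_top]
      trivial
    rw [Subgroup.mem_sup_of_normal_left] at h1
    obtain ⟨s, hs, b, hb, hsb⟩ := h1
    exact ⟨s, hs, b, ⟨b, hb, rfl⟩, congrArg Subtype.val hsb⟩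
  · intro x hx y hy
    have h1 : x * y * x⁻¹ * y⁻¹ ∈ P1 := by
      apply D.der
      have := Subgroup.commutator_mem_commutator (Subgroup.mem_top x) (Subgroup.mem_top y)
      rw [commutatorElement_def] at this
      exact this
    have h2 : x * y * x⁻¹ * y⁻¹ ∈ B0.map K.subtype :=
      mul_mem (mul_mem (mul_mem hx hy) (inv_mem hx)) (inv_mem hy)
    obtain ⟨n, hn, s, hs, hns⟩ := split_P1 P D h1
    have hnK : n ∈ K := by
      have h3 : n = (x * y * x⁻¹ * y⁻¹) * s⁻¹ := by rw [← hns, mul_inv_cancel_right]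
      rw [h3]
      exact K.mul_mem (hBK h2) (K.inv_mem (hPK hs))
    have hnc := K_cap P D hnK hn
    -- a power
    have h4 : s ^ Nat.card N = 1 := by
      refine hcap _ ?_ ((P : Subgroup H).pow_mem hs _)
      have h5 : (x * y * x⁻¹ * y⁻¹) ^ Nat.card N = s ^ Nat.card N := by
        rw [← hns, (show Commute n s from (Subgroup.mem_center_iff.1 hnc s).symm).mul_pow]
        have h6 : (⟨n, hn⟩ : N) ^ Nat.card N = 1 := pow_card_eq_one'
        have h7 : n ^ Nat.card N = 1 := congrArg Subtype.val h6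
        rw [h7, one_mul]
      rw [← h5]
      exact Subgroup.pow_mem _ h2 _
    obtain ⟨j, hj⟩ := P.isPGroup' ⟨s, hs⟩
    have hj' : s ^ p ^ j = 1 := congrArg Subtype.val hj
    have h5 : s = 1 := pow_coprime_one hj' h4 (p_coprime j D.prime)
    rw [← hns, h5, mul_one]
    exact hnc
  · have h1 : (B0.map K.subtype).relIndex K = p ^ k := by
      change ((B0.map K.subtype).subgroupOf K).index = _
      rw [Subgroup.subgroupOf, Subgroup.comap_map_eq_self_of_injective K.subtype_injective,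
        hB0.index_eq_card, hcard]
    rw [h1]
    exact p_coprime k D.prime

/-- the irreducible subgroup -/
theorem exists_R (D : Base p N P1) {B : Subgroup H}
    (hBK : B ≤ Subgroup.normalizer ((P : Subgroup H) : Set H))
    (hB : ∀ x ∈ Subgroup.normalizer ((P : Subgroup H) : Set H),
      ∃ s ∈ (P : Subgroup H), ∃ b ∈ B, s * b = x) : ∃ R : Subgroup H, IsPGroup p R ∧ R ≠ ⊥ ∧
    (∀ r ∈ R, ∀ s ∈ R, r * s = s * r) ∧
    (∀ k ∈ Subgroup.normalizer ((P : Subgroup H) : Set H), ∀ r ∈ R, k * r * k⁻¹ ∈ R) ∧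
    (∀ S : Subgroup H, S ≤ R → (∀ b ∈ B, ∀ s ∈ S, b * s * b⁻¹ ∈ S) → S = ⊥ ∨ S = R) := by
  obtain ⟨R, ⟨hR1, hRP, hRc, hRB⟩, hmin⟩ := WellFounded.has_min
    (wellFounded_lt (α := Subgroup H))
    {R : Subgroup H | R ≠ ⊥ ∧ R ≤ (P : Subgroup H) ∧
      (∀ r ∈ R, ∀ s ∈ (P : Subgroup H), r * s = s * r) ∧
      (∀ b ∈ B, ∀ r ∈ R, b * r * b⁻¹ ∈ R)} (by
    -- the center of `P`
    refine ⟨(Subgroup.center (P : Subgroup H)).map (P : Subgroup H).subtype, ?_,
      Subgroup.map_subtype_le _, ?_, ?_⟩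
    · have hnt : Nontrivial (P : Subgroup H) :=
        (Subgroup.nontrivial_iff_ne_bot _).2 (P_ne P D)
      have h1 : Nontrivial (Subgroup.center (P : Subgroup H)) := P.isPGroup'.center_nontrivial
      intro h
      rw [Subgroup.map_eq_bot_iff_of_injective _ (P : Subgroup H).subtype_injective] at h
      rw [Subgroup.nontrivial_iff_ne_bot] at h1
      exact h1 h
    · rintro _ ⟨r, hr, rfl⟩ s hs
      exact (congrArg Subtype.val (Subgroup.mem_center_iff.1 hr ⟨s, hs⟩)).symm
    · rintro b hb _ ⟨r, hr, rfl⟩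
      have hb' := hBK hb
      have hbi := (Subgroup.normalizer ((P : Subgroup H) : Set H)).inv_mem hb'
      refine ⟨⟨b * r * b⁻¹, mem_K P hb' r.2⟩, ?_, rfl⟩
      change (⟨b * r * b⁻¹, mem_K P hb' r.2⟩ : (P : Subgroup H)) ∈ Subgroup.center (P : Subgroup H)
      rw [Subgroup.mem_center_iff]
      intro s
      apply Subtype.ext
      change (s : H) * (b * r * b⁻¹) = b * r * b⁻¹ * s
      have h1 : b⁻¹ * (s : H) * b ∈ (P : Subgroup H) := by
        have := mem_K P hbi s.2
        rwa [inv_inv] at this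
      have h2 : (b⁻¹ * (s : H) * b) * r = r * (b⁻¹ * (s : H) * b) :=
        congrArg Subtype.val (Subgroup.mem_center_iff.1 hr ⟨_, h1⟩)
      calc (s : H) * (b * r * b⁻¹) = b * ((b⁻¹ * (s : H) * b) * r) * b⁻¹ := by group
        _ = b * r * b⁻¹ * s := by rw [h2]; group)
  refine ⟨R, P.isPGroup'.to_le hRP, hR1, fun r hr s hs => hRc r hr s (hRP hs), ?_, ?_⟩
  · intro k hk r hr
    obtain ⟨s, hs, b, hb, rfl⟩ := hB k hk
    have h1 := hRB b hb r hr
    have h2 := hRc _ h1 s hs
    have h3 : s * b * r * (s * b)⁻¹ = b * r * b⁻¹ := by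
      calc s * b * r * (s * b)⁻¹ = s * (b * r * b⁻¹) * s⁻¹ := by group
        _ = b * r * b⁻¹ := by rw [← h2, mul_inv_cancel_right]
    rw [h3]
    exact h1
  · intro S hS hSB
    by_cases h : S = ⊥
    · exact Or.inl h
    · right
      by_contra hne
      exact hmin S ⟨h, hS.trans hRP, fun r hr => hRc r (hS hr), hSB⟩ (lt_of_le_of_ne hS hne)

include P in
/-- **The step for solvable groups.** -/
theorem base_small [Fintype H] (D : Base p N P1) {g n : ℕ} (hg : 2 ≤ g)
    (hd : p ^ n * (p - 1) ∣ g - 1) : (p : ℤ) ^ (n + 1) ∣ (numSurj g H : ℤ) := by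
  obtain ⟨B, hBK, hB, hBc, hBi⟩ := exists_compl P D
  obtain ⟨R, hRp, hR1, hRc, hRK, hRi⟩ := exists_R P D hBK hB
  have hE : Ext N := ⟨D.nonc, D.small, D.comm,
    (N_gen P D).trans (Subgroup.commutator_mono le_rfl le_top), fun m hm hmc => N_cent P D hm hmc⟩
  have hA : Act p N (Subgroup.normalizer ((P : Subgroup H) : Set H)) B R := by
    refine ⟨D.prime, hRp, fix_center D (K_sup P D) hRp hR1 hRK, hBc, ?_, hRc, hR1, hRi, hBi⟩
    intro b hb
    rw [Subgroup.mem_normalizer_iff]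
    intro r
    constructor
    · exact hRK b (hBK hb) r
    · intro h
      have h1 := hRK b⁻¹ (Subgroup.inv_mem _ (hBK hb)) _ h
      have h2 : b⁻¹ * (b * r * b⁻¹) * b⁻¹⁻¹ = r := by group
      rwa [h2] at h1
  refine surj_small hE hA (K_sup P D) (K_ne P D) (fun x hx hxN => K_cap P D hx hxN) ?_
    (fun L hL hLt => sup_norm P D hL hLt) hg hd
  intro z hz
  rw [Subgroup.mem_normalizer_iff]
  intro h
  rw [← Subgroup.mem_center_iff.1 hz h, mul_inv_cancel_right]

end

end Pool.Agent.Helper15.SV
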