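import Pool.Agent.Helper15.AWC.Trans3
import Pool.Agent.Helper15.SV.Cyc

/-!
# Traces of operators
-/

open scoped Classical BigOperators
open Representation Pool.Agent.Helper884.IC Pool.Agent.Y63.AWC Pool.Agent.Helper15.AW

set_option linter.unusedSectionVars false
set_option linter.unusedVariables false

noncomputable section

namespace Pool.Agent.Helper15.SV

open Pool.Agent.Y63.KR (surfaceWord coords)

section

variable {G : Type} [Group G] [Finite G] {M : Subgroup G} [M.Normal] {p : ℕ} [hp : Fact p.Prime]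

/-- an element commuting with a `p`-group `R`, which acts on `M` with central fixed points -/
lemma comm_trivial {R : Subgroup G} (hR : IsPGroup p R) (hM : ¬ p ∣ Nat.card M)
    (hC : ∀ m ∈ M, (∀ s ∈ R, s * m = m * s) → m ∈ Subgroup.center G) {b : G}
    (hb : ∀ s ∈ R, s * b = b * s) {m z : G} (hm : m ∈ M) (hz : z ∈ Subgroup.center G)
    (h : m * b * m⁻¹ * b⁻¹ = z) : z = 1 := by
  let Y := {n : M // (n : G) * b * (n : G)⁻¹ * b⁻¹ = z}
  have hz' : ∀ x : G, x * z = z * x := fun x => Subgroup.mem_center_iff.1 hz x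
  have hsm : ∀ (s : R) (n : M), (n : G) * b * (n : G)⁻¹ * b⁻¹ = z →
      ((MulAut.conjNormal (s : G) n : M) : G) * b *
        ((MulAut.conjNormal (s : G) n : M) : G)⁻¹ * b⁻¹ = z := by
    intro s n hn
    rw [MulAut.conjNormal_apply]
    have hs := hb s s.2
    have h1 : (s : G)⁻¹ * b = b * (s : G)⁻¹ := by
      rw [inv_mul_eq_iff_eq_mul, ← mul_assoc, hs, mul_inv_cancel_right]
    have h2 : (s : G)⁻¹ * b⁻¹ = b⁻¹ * (s : G)⁻¹ := by
      rw [← mul_inv_rev, ← hs, mul_inv_rev]
    calc (s : G) * n * (s : G)⁻¹ * b * ((s : G) * n * (s : G)⁻¹)⁻¹ * b⁻¹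
        = (s : G) * n * ((s : G)⁻¹ * b) * (s : G) * (n : G)⁻¹ * ((s : G)⁻¹ * b⁻¹) := by group
      _ = (s : G) * (n * b * (n : G)⁻¹ * b⁻¹) * (s : G)⁻¹ := by
          rw [h1, h2]
          group
      _ = z := by rw [hn, hz', mul_inv_cancel_right]
  let _ : MulAction R Y :=
    { smul := fun s n => ⟨MulAut.conjNormal (s : G) n.1, hsm s n.1 n.2⟩
      one_smul := by
        intro n
        apply Subtype.ext
        change MulAut.conjNormal ((1 : R) : G) n.1 = n.1
        rw [OneMemClass.coe_one, map_one, MulAut.one_apply]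
      mul_smul := by
        intro s t n
        apply Subtype.ext
        change MulAut.conjNormal ((s * t : R) : G) n.1 =
          MulAut.conjNormal (s : G) (MulAut.conjNormal (t : G) n.1)
        rw [Subgroup.coe_mul, map_mul, MulAut.mul_apply] }
  -- the cardinality
  let C : Subgroup M :=
    { carrier := {n | (n : G) * b = b * n}
      one_mem' := by simp
      mul_mem' := by
        intro x y hx hy
        change ((x * y : M) : G) * b = b * ((x * y : M) : G)
        rw [Subgroup.coe_mul, mul_assoc, show (y : G) * b = b * y from hy, ← mul_assoc,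
          show (x : G) * b = b * x from hx, mul_assoc]
      inv_mem' := by
        intro x hx
        change ((x⁻¹ : M) : G) * b = b * ((x⁻¹ : M) : G)
        rw [Subgroup.coe_inv, inv_mul_eq_iff_eq_mul, ← mul_assoc, show (x : G) * b = b * x from hx,
          mul_inv_cancel_right] }
  have hcard : Nat.card Y = Nat.card C := by
    refine Nat.card_congr
      { toFun := fun n => ⟨(⟨m, hm⟩ : M)⁻¹ * n.1, ?_⟩
        invFun := fun c => ⟨(⟨m, hm⟩ : M) * c.1, ?_⟩
        left_inv := fun n => Subtype.ext (by simp)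
        right_inv := fun c => Subtype.ext (by simp) }
    · change ((((⟨m, hm⟩ : M)⁻¹ * n.1 : M)) : G) * b = b * _
      have h1 : (n.1 : G) * b = z * b * n.1 := by
        rw [← mul_inv_eq_iff_eq_mul, ← mul_inv_eq_iff_eq_mul]
        exact n.2
      have h2 : m * b = z * b * m := by
        rw [← mul_inv_eq_iff_eq_mul, ← mul_inv_eq_iff_eq_mul]
        exact h
      rw [Subgroup.coe_mul, Subgroup.coe_inv]
      change m⁻¹ * n.1 * b = b * (m⁻¹ * n.1)
      rw [mul_assoc, h1, inv_mul_eq_iff_eq_mul]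
      calc z * b * (n.1 : G) = (z * b * m) * m⁻¹ * n.1 := by group
        _ = m * (b * (m⁻¹ * n.1)) := by rw [← h2]; group
    · change (((⟨m, hm⟩ : M) * c.1 : M) : G) * b * (((⟨m, hm⟩ : M) * c.1 : M) : G)⁻¹ * b⁻¹ = z
      have h1 : (c.1 : G) * b = b * c.1 := c.2
      rw [Subgroup.coe_mul]
      change m * c.1 * b * (m * c.1)⁻¹ * b⁻¹ = z
      calc m * c.1 * b * (m * c.1)⁻¹ * b⁻¹ = m * (c.1 * b) * (c.1 : G)⁻¹ * m⁻¹ * b⁻¹ := by group
        _ = m * b * m⁻¹ * b⁻¹ := by rw [h1]; group
        _ = z := h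
  have hY : ¬ p ∣ Nat.card Y := by
    rw [hcard]
    exact fun hd => hM (hd.trans (Subgroup.card_subgroup_dvd_card C))
  obtain ⟨n, hn⟩ := hR.nonempty_fixed_point_of_prime_not_dvd_card Y hY
  have hn1 : (n.1 : G) ∈ Subgroup.center G := by
    refine hC n.1 n.1.2 fun s hs => ?_
    have h1 := congrArg (fun y : Y => ((y.1 : M) : G)) (hn ⟨s, hs⟩)
    change ((MulAut.conjNormal s n.1 : M) : G) = n.1 at h1
    rw [MulAut.conjNormal_apply] at h1
    rw [mul_inv_eq_iff_eq_mul] at h1
    exact h1
  have h2 := n.2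
  have h3 : (n.1 : G) * b = b * n.1 := (Subgroup.mem_center_iff.1 hn1 b).symm
  rw [h3, mul_inv_cancel_right, mul_inv_cancel] at h2
  exact h2.symm

end

section

variable {G : Type} [Group G] [Fintype G] {M : Subgroup G} [M.Normal] {p : ℕ} [hp : Fact p.Prime]
  {V : Type} [AddCommGroup V] [Module ℂ V] [FiniteDimensional ℂ V]

/-- the operator of an element commuting with `R` has nonzero trace -/
lemma trace_ne (rho : Representation ℂ M V) (hr : rho.IsIrreducible)
    (hfull : ∀ m : M, (m : G) ∉ Subgroup.center G → rho.character m = 0)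
    {R : Subgroup G} (hR : IsPGroup p R) (hM : ¬ p ∣ Nat.card M)
    (hC : ∀ m ∈ M, (∀ s ∈ R, s * m = m * s) → m ∈ Subgroup.center G) (y : Khat rho)
    (hb : ∀ s ∈ R, s * fstH rho y = fstH rho y * s) :
    LinearMap.trace ℂ V ((sndH rho y : (Module.End ℂ V)ˣ) : Module.End ℂ V) ≠ 0 := by
  intro h0
  set T : (Module.End ℂ V)ˣ := sndH rho y with hT
  set b : G := fstH rho y with hbdef
  have h1 := avg_scalar rho hr (T : Module.End ℂ V)
  rw [h0, mul_zero, zero_smul] at h1
  have h2 := congrArg (fun S : Module.End ℂ V => LinearMap.trace ℂ V (S * (T⁻¹ : (Module.End ℂ V)ˣ)))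
    h1
  simp only [zero_mul, map_zero, Finset.sum_mul, map_sum] at h2
  have h3 : ∀ m : M, LinearMap.trace ℂ V (rho m * (T : Module.End ℂ V) * rho m⁻¹ *
      ((T⁻¹ : (Module.End ℂ V)ˣ) : Module.End ℂ V)) =
        rho.character (m * MulAut.conjNormal b m⁻¹) := by
    intro m
    have h4 : (T : Module.End ℂ V) * rho m⁻¹ = rho (MulAut.conjNormal b m⁻¹) * T := y.2 m⁻¹
    rw [mul_assoc (rho m), h4, ← mul_assoc, mul_assoc, Units.mul_inv, mul_one, ← map_mul]
    rfl
  rw [Finset.sum_congr rfl fun m _ => h3 m] at h2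
  have hdim : rho.character 1 ≠ 0 := one_ne ⟨V, _, _, ‹_›, rho, hr, rfl⟩
  have h4 : ∀ m : M, rho.character (m * MulAut.conjNormal b m⁻¹) =
      if m * MulAut.conjNormal b m⁻¹ = 1 then rho.character 1 else 0 := by
    intro m
    split_ifs with h5
    · rw [h5]
    · apply hfull
      intro h6
      apply h5
      apply Subtype.ext
      refine comm_trivial hR hM hC (b := b) (fun s hs => hb s hs) m.2 h6 ?_
      rw [Subgroup.coe_mul, MulAut.conjNormal_apply, Subgroup.coe_inv]
      group
  rw [Finset.sum_congr rfl fun m _ => h4 m, ← Finset.sum_filter, Finset.sum_const,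
    nsmul_eq_mul] at h2
  rcases mul_eq_zero.1 h2 with h5 | h5
  · have h6 : (Finset.univ.filter fun m : M => m * MulAut.conjNormal b m⁻¹ = 1).card = 0 := by
      exact_mod_cast h5
    rw [Finset.card_eq_zero] at h6
    have h7 : (1 : M) ∈ Finset.univ.filter fun m : M => m * MulAut.conjNormal b m⁻¹ = 1 := by
      simp
    rw [h6] at h7
    simp at h7
  · exact hdim h5

/-- the commutator of operators is a scalar -/
lemma comm_scalar (rho : Representation ℂ M V) (hr : rho.IsIrreducible) (x : Khat rho)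
    (hx : fstH rho x ∈ Subgroup.center G) :
    ∃ c : ℂ, ((sndH rho x : (Module.End ℂ V)ˣ) : Module.End ℂ V) = c • 1 := by
  refine scalar_of_comm rho hr _ fun m => ?_
  have h1 : ((sndH rho x : (Module.End ℂ V)ˣ) : Module.End ℂ V) * rho m =
      rho (MulAut.conjNormal (fstH rho x) m) * (sndH rho x : (Module.End ℂ V)ˣ) := x.2 m
  rw [h1]
  congr 2
  apply Subtype.ext
  rw [MulAut.conjNormal_apply, ← Subgroup.mem_center_iff.1 hx (m : G), mul_inv_cancel_right]

/-- operators of elements whose commutator is central commute, if one of them has nonzero trace -/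
lemma comm_of_trace (rho : Representation ℂ M V) (hr : rho.IsIrreducible) (x y : Khat rho)
    (hxy : fstH rho (x * y * x⁻¹ * y⁻¹) ∈ Subgroup.center G)
    (hy : LinearMap.trace ℂ V ((sndH rho y : (Module.End ℂ V)ˣ) : Module.End ℂ V) ≠ 0) :
    sndH rho x * sndH rho y = sndH rho y * sndH rho x := by
  obtain ⟨c, hc⟩ := comm_scalar rho hr _ hxy
  simp only [map_mul, map_inv, Units.val_mul] at hc
  have h1 : ((sndH rho x : (Module.End ℂ V)ˣ) : Module.End ℂ V) * (sndH rho y : (Module.End ℂ V)ˣ) =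
      c • ((sndH rho y : (Module.End ℂ V)ˣ) : Module.End ℂ V) * (sndH rho x : (Module.End ℂ V)ˣ) := by
    have h2 := congrArg (fun S : Module.End ℂ V => S * (sndH rho y : (Module.End ℂ V)ˣ) *
      (sndH rho x : (Module.End ℂ V)ˣ)) hc
    simp only [Units.inv_mul_cancel_right, smul_mul_assoc, one_mul] at h2
    rw [h2, smul_mul_assoc]
  have h3 := congrArg (fun S : Module.End ℂ V => LinearMap.trace ℂ V (S *
    ((sndH rho x)⁻¹ : (Module.End ℂ V)ˣ))) h1
  simp only [Units.mul_inv_cancel_right] at h3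
  rw [LinearMap.trace_mul_comm, ← mul_assoc, Units.inv_mul, one_mul, map_smul, smul_eq_mul] at h3
  have hc1 : c = 1 := by
    have h4 : (c - 1) * LinearMap.trace ℂ V ((sndH rho y : (Module.End ℂ V)ˣ) :
        Module.End ℂ V) = 0 := by
      rw [sub_mul, one_mul, ← h3, sub_self]
    rcases mul_eq_zero.1 h4 with h5 | h5
    · exact sub_eq_zero.1 h5
    · exact absurd h5 hy
  rw [hc1, one_smul] at h1
  exact Units.ext h1

end

end Pool.Agent.Helper15.SV
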