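import Pool.Agent.Helper15.SV.Full
import Pool.Agent.Helper15.QS.Kron

/-!
# The sum over the characters
-/

open scoped Classical BigOperators
open Representation Pool.Agent.Helper884.IC Pool.Agent.Y63.AWC Pool.Agent.Helper15.AW

set_option linter.unusedSectionVars false
set_option linter.unusedVariables false

noncomputable section

namespace Pool.Agent.Helper15.SV

open Pool.Agent.Y63.KR (surfaceWord coords dg cod dg_spec cod_spec)
open Pool.Agent.Helper15.QS (irr_of_norm)

/-- the trivial character is irreducible -/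
lemma irr_one (P : Type) [Group P] [Fintype P] : IsIrrChar (fun _ : P => (1 : ℂ)) := by
  have h1 : (1 : Representation ℂ P ℂ).character = fun _ : P => (1 : ℂ) := by
    funext x
    change LinearMap.trace ℂ ℂ ((1 : Representation ℂ P ℂ) x) = 1
    rw [MonoidHom.one_apply, LinearMap.trace_one, Module.finrank_self, Nat.cast_one]
  refine ⟨ℂ, _, _, inferInstance, (1 : Representation ℂ P ℂ), irr_of_norm _ ?_, h1.symm⟩
  rw [h1]
  simp only [mul_one, Finset.sum_const, Finset.card_univ, nsmul_eq_mul]
  rw [Nat.card_eq_fintype_card]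

section

variable {G : Type} [Group G] [Fintype G] {M : Subgroup G} [M.Normal] {p : ℕ} [hp : Fact p.Prime]

/-- the structure of the complement and of a chief factor -/
structure Act (p : ℕ) (M K B R : Subgroup G) : Prop where
  prime : ¬ p ∣ Nat.card M
  pgr : IsPGroup p R
  fix : ∀ m ∈ M, (∀ s ∈ R, s * m = m * s) → m ∈ Subgroup.center G
  comm : ∀ x ∈ B, ∀ y ∈ B, x * y * x⁻¹ * y⁻¹ ∈ Subgroup.center G
  norm : B ≤ Subgroup.normalizer (R : Set G)
  ab : ∀ r ∈ R, ∀ s ∈ R, r * s = s * r
  nt : R ≠ ⊥
  irr : ∀ S : Subgroup G, S ≤ R → (∀ b ∈ B, ∀ s ∈ S, b * s * b⁻¹ ∈ S) → S = ⊥ ∨ S = R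
  idx : Nat.Coprime (B.relIndex K) (Nat.card M)

/-- the value of the sum for a fully ramified character -/
theorem zf_val {K B R : Subgroup G} (hA : Act p M K B R) {V : Type} [AddCommGroup V] [Module ℂ V]
    [FiniteDimensional ℂ V] (rho : Representation ℂ M V) (hr : rho.IsIrreducible)
    (hfull : ∀ m : M, (m : G) ∉ Subgroup.center G → rho.character m = 0) {g : ℕ}
    (q : Fin g → G × G) (hq : ∀ i, (q i).1 ∈ K ∧ (q i).2 ∈ K) (hwM : surfaceWord q ∈ M)
    (hwc : surfaceWord q ∈ Subgroup.center G) :
    zf q rho.character = rho.character ⟨_, hwM⟩ / rho.character 1 := by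
  have hnt := irr_nontrivial rho hr
  have hirr : IsIrrChar rho.character := ⟨V, _, _, ‹_›, rho, hr, rfl⟩
  have hdim : rho.character 1 ≠ 0 := one_ne hirr
  have hsurj := fstH_surj rho hr (inv_of hfull)
  have hsurj' := hsurj
  choose P hP using hsurj'
  have hq' : mapT (fstH rho) (mapT P q) = q := by
    funext i
    simp only [mapT, hP]
  have hw' : surfaceWord (mapT (fstH rho) (mapT P q)) ∈ M := by rw [hq']; exact hwM
  obtain ⟨c, hc0, hc1, hc2⟩ := sum_lifts rho hr (mapT P q) hw'
  have h1 := word_trivial rho hr hsurj (B := B) (K := K)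
    (comm_all (p := p) rho hr hsurj hfull hA.pgr hA.prime hA.fix hA.comm hA.norm
      hA.ab hA.nt hA.irr) hA.idx (mapT P q) (fun i => by
        simp only [mapT, hP]
        exact hq i) (by rw [hq']; exact hwc)
  rw [h1] at hc1
  have hww : (⟨surfaceWord (mapT (fstH rho) (mapT P q)), hw'⟩ : M) = ⟨surfaceWord q, hwM⟩ :=
    Subtype.ext (congrArg surfaceWord hq')
  rw [hww] at hc1
  have h2 : rho.character ⟨surfaceWord q, hwM⟩ = c⁻¹ * rho.character 1 := by
    have h3 := congrArg (LinearMap.trace ℂ V) hc1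
    rw [Units.val_one, map_smul, smul_eq_mul] at h3
    have h4 : LinearMap.trace ℂ V (1 : Module.End ℂ V) = rho.character 1 := by
      rw [LinearMap.trace_one, char_one]
    rw [h4] at h3
    change LinearMap.trace ℂ V (rho ⟨surfaceWord q, hwM⟩) = _
    rw [h3, inv_mul_cancel_left₀ hc0]
  rw [h2, mul_div_cancel_right₀ _ hdim]
  refine zf_eq hwM hirr c⁻¹ ?_
  have htr : ∑ m : Fin g → M × M, rho.character ⟨_, word_lift_mem hwM m⟩ =
      LinearMap.trace ℂ V (∑ m : Fin g → M × M, rho0 rho
        (surfaceWord (mulT q (mapT M.subtype m)))) := by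
    rw [map_sum]
    exact Finset.sum_congr rfl fun m _ => (trace_rho0 rho _).symm
  rw [htr]
  have h1 := congrArg (LinearMap.trace ℂ V) hc2
  rw [hq'] at h1
  rw [h1, map_smul, LinearMap.trace_one, smul_eq_mul, ← rho.char_one]
  ring

/-- the sum over all characters -/
theorem sum_zf {K B R : Subgroup G} (hE : Ext M) (hA : Act p M K B R) {g : ℕ}
    (q : Fin g → G × G) (hq : ∀ i, (q i).1 ∈ K ∧ (q i).2 ∈ K) (hwM : surfaceWord q ∈ M)
    (hwc : surfaceWord q ∈ Subgroup.center G) (hgen : Subgroup.closure (coords q) ⊔ M = ⊤) :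
    ∑ theta ∈ Irr M, zf q theta =
      (Nat.card ((Subgroup.center G).subgroupOf M) : ℂ) * (if surfaceWord q = 1 then 1 else 0) := by
  set Z0 : Subgroup M := (Subgroup.center G).subgroupOf M with hZ0
  let P : (M → ℂ) → Prop := fun theta => ∀ z : M, (z : G) ∈ Subgroup.center G → theta z = theta 1
  have hZ : (Nat.card Z0 : ℂ) ≠ 0 := cardG_ne
  have hMc : (Nat.card M : ℂ) ≠ 0 := cardG_ne
  -- the characters which are trivial on the center
  have hone : (fun _ : M => (1 : ℂ)) ∈ Irr M := mem_Irr.2 (irr_one M)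
  have h1 : ∑ theta ∈ (Irr M).filter P, zf q theta = 1 := by
    rw [Finset.sum_eq_single_of_mem (fun _ : M => (1 : ℂ))
      (Finset.mem_filter.2 ⟨hone, fun _ _ => rfl⟩)]
    · refine zf_eq hwM (irr_one M) 1 ?_
      rw [Finset.sum_const, Finset.card_univ, nsmul_eq_mul, mul_one, one_mul, one_mul, div_one,
        ← Nat.card_eq_fintype_card, Nat.card_fun, Nat.card_prod]
      simp only [Nat.card_eq_fintype_card, Fintype.card_fin]
      push_cast
      ring
    · intro theta hth hne
      obtain ⟨hirr, hPt⟩ := Finset.mem_filter.1 hth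
      rw [mem_Irr] at hirr
      refine (zf_spec hwM hgen hirr).2.1 fun hinv => hne ?_
      obtain ⟨V, _, _, _, rho, hr, rfl⟩ := hirr
      funext m
      exact triv_of hE rho hr hinv hPt m
  -- the other characters
  have h2 : ∀ theta ∈ (Irr M).filter fun theta => ¬ P theta,
      zf q theta = (Nat.card Z0 : ℂ) / Nat.card M * (theta ⟨_, hwM⟩ * theta 1) ∧
        ∑ z : Z0, theta (z : M) = 0 := by
    intro theta hth
    obtain ⟨hirr, hPt⟩ := Finset.mem_filter.1 hth
    rw [mem_Irr] at hirr
    have hdim := one_ne hirr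
    obtain ⟨V, _, _, _, rho, hr, rfl⟩ := hirr
    have hfull := full_of hE rho hr hPt
    refine ⟨?_, sum_cent rho hr hPt⟩
    rw [zf_val hA rho hr hfull q hq hwM hwc, ← norm_of rho hr hfull]
    rw [← hZ0]
    field_simp
  -- column orthogonality
  have h3 : ∀ w : M, ∑ theta ∈ Irr M, theta w * theta 1 = if w = 1 then (Nat.card M : ℂ) else 0 := by
    intro w
    have h4 := col_orth w 1
    rw [inv_one] at h4
    rw [h4]
    by_cases hw : w = 1
    · rw [if_pos hw]
      norm_cast
      refine Nat.card_congr (Equiv.subtypeUnivEquiv fun x => ?_)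
      rw [hw]
      group
    · rw [if_neg hw]
      norm_cast
      rw [Nat.card_eq_zero]
      left
      constructor
      rintro ⟨x, hx⟩
      apply hw
      calc w = x⁻¹ * (x * w * x⁻¹) * x := by group
        _ = 1 := by rw [hx]; group
  have h5 : ∀ w : M, (w : G) ∈ Subgroup.center G →
      ∑ theta ∈ (Irr M).filter (fun theta => ¬ P theta), theta w * theta 1 =
        (if w = 1 then (Nat.card M : ℂ) else 0) -
          ∑ theta ∈ (Irr M).filter P, theta 1 * theta 1 := by
    intro w hw
    rw [← h3 w, ← Finset.sum_filter_add_sum_filter_not (Irr M) P, add_comm, eq_sub_iff_add_eq]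
    congr 1
    refine Finset.sum_congr rfl fun theta hth => ?_
    rw [(Finset.mem_filter.1 hth).2 w hw]
  have h6 : ∑ theta ∈ (Irr M).filter P, theta 1 * theta 1 = (Nat.card M : ℂ) / Nat.card Z0 := by
    have h7 : ∑ w : Z0, ∑ theta ∈ (Irr M).filter (fun theta => ¬ P theta),
        theta (w : M) * theta 1 = 0 := by
      rw [Finset.sum_comm]
      refine Finset.sum_eq_zero fun theta hth => ?_
      rw [← Finset.sum_mul, (h2 theta hth).2, zero_mul]
    have h7' := Finset.sum_congr (s₁ := (Finset.univ : Finset Z0)) rfl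
      fun (w : Z0) _ => h5 (w : M) w.2
    rw [h7', Finset.sum_sub_distrib, Finset.sum_const,
      Finset.card_univ, nsmul_eq_mul, ← Nat.card_eq_fintype_card] at h7
    have h8 : ∑ w : Z0, (if (w : M) = 1 then (Nat.card M : ℂ) else 0) = Nat.card M := by
      rw [Finset.sum_eq_single (1 : Z0)]
      · rw [OneMemClass.coe_one, if_pos rfl]
      · intro w _ hw
        rw [if_neg]
        exact fun h => hw (Subtype.ext h)
      · intro h
        exact absurd (Finset.mem_univ _) h
    rw [h8, sub_eq_zero] at h7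
    rw [h7, mul_div_cancel_left₀ _ hZ]
  rw [← Finset.sum_filter_add_sum_filter_not (Irr M) P, h1,
    Finset.sum_congr rfl fun theta hth => (h2 theta hth).1, ← Finset.mul_sum, h5 _ hwc, h6]
  have hiff : ((⟨surfaceWord q, hwM⟩ : M) = 1) ↔ surfaceWord q = 1 :=
    ⟨fun h => congrArg Subtype.val h, fun h => Subtype.ext h⟩
  simp only [hiff]
  split_ifs
  · field_simp
    ring
  · field_simp
    ring

end

end Pool.Agent.Helper15.SV
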