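import Pool.Agent.Helper15.SV.Com
import Pool.Agent.Helper15.AWC.Main

/-!
# The words in the operators
-/

open scoped Classical BigOperators
open Representation Pool.Agent.Helper884.IC Pool.Agent.Y63.AWC Pool.Agent.Helper15.AW

set_option linter.unusedSectionVars false
set_option linter.unusedVariables false

noncomputable section

namespace Pool.Agent.Helper15.SV

open Pool.Agent.Y63.KR (surfaceWord coords dg cod dg_spec cod_spec)

section

variable {G : Type} [Group G] [Fintype G] {M : Subgroup G} [M.Normal] {p : ℕ} [hp : Fact p.Prime]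
  {V : Type} [AddCommGroup V] [Module ℂ V] [FiniteDimensional ℂ V]

lemma det_word {g : ℕ} (u : Fin g → (Module.End ℂ V)ˣ × (Module.End ℂ V)ˣ) :
    LinearMap.det ((surfaceWord u : (Module.End ℂ V)ˣ) : Module.End ℂ V) = 1 := by
  let f : (Module.End ℂ V)ˣ →* ℂˣ := Units.map (LinearMap.det : Module.End ℂ V →* ℂ)
  have h1 : f (surfaceWord u) = 1 := by
    rw [← word_mapT]
    exact word_comm mul_comm _
  exact congrArg Units.val h1

/-- the words in the operators are trivial -/
theorem word_trivial (rho : Representation ℂ M V) (hr : rho.IsIrreducible)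
    (hsurj : Function.Surjective (fstH rho)) {B K : Subgroup G}
    (hcomm : ∀ x y : Khat rho, fstH rho x ∈ B → fstH rho y ∈ B →
      sndH rho x * sndH rho y = sndH rho y * sndH rho x)
    (hidx : Nat.Coprime (B.relIndex K) (Nat.card M)) {g : ℕ} (u : Fin g → Khat rho × Khat rho)
    (hu : ∀ i, fstH rho (u i).1 ∈ K ∧ fstH rho (u i).2 ∈ K)
    (hw : surfaceWord (mapT (fstH rho) u) ∈ Subgroup.center G) :
    surfaceWord (mapT (sndH rho) u) = 1 := by
  have hnt := irr_nontrivial rho hr
  have hirr : IsIrrChar rho.character := ⟨V, _, _, ‹_›, rho, hr, rfl⟩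
  set E : Subgroup (Khat rho) := K.comap (fstH rho) with hE
  set Bh : Subgroup E := (B.comap (fstH rho)).subgroupOf E with hBh
  have hindex : Bh.index = B.relIndex K := by
    change (B.comap (fstH rho)).relIndex E = _
    rw [Subgroup.relIndex_comap, hE, Subgroup.map_comap_eq_self_of_surjective hsurj]
  have hfin : Bh.FiniteIndex := ⟨by
    rw [hindex]
    exact (B.subgroupOf K).index_ne_zero_of_finite⟩
  let u' : Fin g → E × E := fun i => (⟨(u i).1, (hu i).1⟩, ⟨(u i).2, (hu i).2⟩)
  have hu' : mapT E.subtype u' = u := rfl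
  have hw' : ((surfaceWord u' : E) : Khat rho) = surfaceWord u := by
    have := word_mapT E.subtype u'
    rw [hu'] at this
    exact this.symm
  obtain ⟨c, hc⟩ := comm_scalar rho hr (surfaceWord u) (by rwa [← word_mapT])
  -- the word is central
  have hcen : ∀ x : Khat rho, x * surfaceWord u = surfaceWord u * x := by
    intro x
    refine khat_ext rho ?_ ?_
    · rw [map_mul, map_mul, ← word_mapT]
      exact Subgroup.mem_center_iff.1 hw _
    · rw [map_mul, map_mul, Units.val_mul, Units.val_mul, hc, mul_smul_comm, smul_mul_assoc,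
        mul_one, one_mul]
  -- the transfer
  have htr : MonoidHom.transfer (Abelianization.of : Bh →* Abelianization Bh)
      (surfaceWord u') = 1 := by
    rw [← word_mapT]
    exact word_comm mul_comm _
  rw [MonoidHom.transfer_eq_pow (Abelianization.of : Bh →* Abelianization Bh) (surfaceWord u') (by
    intro k x _
    have h1 : surfaceWord u' * x = x * surfaceWord u' := by
      apply Subtype.ext
      rw [Subgroup.coe_mul, Subgroup.coe_mul, hw', hcen]
    have h2 : surfaceWord u' ^ k * x = x * surfaceWord u' ^ k :=
      (Commute.pow_left (show Commute (surfaceWord u') x from h1) k).eq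
    rw [mul_assoc, h2, inv_mul_cancel_left])] at htr
  -- the operators commute
  let f : Bh →* (Module.End ℂ V)ˣ := (sndH rho).comp (E.subtype.comp Bh.subtype)
  have hker : commutator Bh ≤ f.ker := by
    rw [commutator_def, Subgroup.commutator_le]
    intro a _ b _
    rw [MonoidHom.mem_ker, commutatorElement_def, map_mul, map_mul, map_mul, map_inv, map_inv]
    have h1 : f a * f b = f b * f a := hcomm _ _ a.2 b.2
    rw [h1, mul_inv_cancel_right, mul_inv_cancel]
  have h3 : (⟨surfaceWord u' ^ Bh.index, _⟩ : Bh) ∈ commutator Bh :=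
    (QuotientGroup.eq_one_iff _).1 htr
  have h4 := hker h3
  have h5 : (sndH rho (surfaceWord u)) ^ Bh.index = 1 := by
    have h6 : sndH rho (((surfaceWord u' ^ Bh.index : E)) : Khat rho) = 1 := h4
    rw [Subgroup.coe_pow, hw', map_pow] at h6
    exact h6
  have h6 : c ^ Bh.index = 1 := by
    have h7 := congrArg (fun T : (Module.End ℂ V)ˣ => (T : Module.End ℂ V)) h5
    simp only [Units.val_pow_eq_pow_val, hc, smul_pow, one_pow, Units.val_one] at h7
    obtain ⟨v, hv⟩ := exists_ne (0 : V)
    have h8 := congrArg (fun S : Module.End ℂ V => S v) h7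
    simp only [Module.End.one_apply, LinearMap.smul_apply] at h8
    have h9 : (c ^ Bh.index - 1) • v = 0 := by rw [sub_smul, one_smul, h8, sub_self]
    rcases smul_eq_zero.1 h9 with h10 | h10
    · exact sub_eq_zero.1 h10
    · exact absurd h10 hv
  have h7 : c ^ Module.finrank ℂ V = 1 := by
    have h8 := det_word (mapT (sndH rho) u)
    rw [word_mapT, hc, LinearMap.det_smul, map_one, mul_one] at h8
    exact h8
  have h8 : Module.finrank ℂ V ∣ Nat.card M := by
    have h9 : dg rho.character = Module.finrank ℂ V := by
      have := (dg_spec hirr).1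
      rw [char_one] at this
      exact_mod_cast this.symm
    exact ⟨_, by rw [← h9, cod_spec hirr]⟩
  have h9 : c ^ Nat.card M = 1 := by
    obtain ⟨k, hk⟩ := h8
    rw [hk, pow_mul, h7, one_pow]
  have h10 : c = 1 := by
    rw [← hindex] at hidx
    have h11 := pow_gcd_eq_one.2 ⟨h6, h9⟩
    rw [hidx.gcd_eq_one, pow_one] at h11
    exact h11
  rw [word_mapT]
  apply Units.ext
  rw [hc, h10, one_smul]
  rfl

end

end Pool.Agent.Helper15.SV
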